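import Pool.Agent.Lib.H10C.Sq
import Pool.Agent.Lib.PolyTime.Reach
import Pool.Agent.Lib.PolyTime.Final

/-!
# Playing arbitrary moves until the board is stuck, in polynomial time
-/

set_option autoImplicit false

namespace Pool.Agent.H10C

open Relation Pool.Agent.PolyTime

/-- the cells with a tile -/
def cells (B : Board) : List Cell :=
  (B.1.zipIdx.map fun p => (false, p.2)) ++ (B.2.zipIdx.map fun p => (true, p.2))

/-- two cells share an edge (Boolean version) -/
def nearB (x y : Cell) : Bool :=
  (decide (x.1 = y.1) && (decide (y.2 = x.2 + 1) || decide (x.2 = y.2 + 1))) ||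
    (!decide (x.1 = y.1) && decide (x.2 = y.2))

/-- the colour of a cell -/
def tileB (B : Board) (x : Cell) : Option Bool := (bif x.1 then B.2 else B.1)[x.2]?

/-- all pairs of linked cells -/
def edges (B : Board) : List (Cell × Cell) :=
  (cells B ×ˢ cells B).filter fun e => nearB e.1 e.2 && decide (tileB B e.1 = tileB B e.2)

/-- delete the cells of the list `L` in the column `j` -/
def keepB (l : List Bool) (j : Bool) (L : List Cell) : List Bool :=
  (l.zipIdx.filter fun p => !decide ((j, p.2) ∈ L)).map Prod.fst

/-- delete the cells of the list `L` -/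
def delB (B : Board) (L : List Cell) : Board := (keepB B.1 false L, keepB B.2 true L)

/-- one move, if there is one -/
def step (s : Board × List Cell) : Board × List Cell :=
  match (edges s.1).head? with
  | none => s
  | some e => (delB s.1 (reach (edges s.1) e.1), s.2 ++ [e.1])

/-- the algorithm: make the first possible move until there is none -/
def algo (B : Board) : List Cell := (step^[(B.1 ++ B.2).length] (B, [])).2

/-! ### correctness -/

lemma tileB_eq (B : Board) (x : Cell) : tileB B x = tile B x := by
  obtain ⟨j, i⟩ := x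
  cases j <;> rfl

lemma nearB_iff (x y : Cell) : nearB x y = true ↔ Near x y := by
  simp only [nearB, Near, Bool.or_eq_true, Bool.and_eq_true, decide_eq_true_eq,
    Bool.not_eq_true', decide_eq_false_iff_not, ne_eq]

lemma mem_cells {B : Board} {x : Cell} : x ∈ cells B ↔ x.2 < (col B x.1).length := by
  obtain ⟨j, i⟩ := x
  have key : ∀ (l : List Bool) (k : Bool), ((j, i) ∈ l.zipIdx.map fun p => (k, p.2)) ↔
      j = k ∧ i < l.length := by
    intro l k
    rw [List.mem_map]
    constructor
    · rintro ⟨⟨a, n⟩, hp, he⟩
      rw [Prod.mk.injEq] at he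
      obtain ⟨rfl, rfl⟩ := he
      rw [List.mem_zipIdx_iff_getElem?] at hp
      exact ⟨rfl, (List.getElem?_eq_some_iff.1 hp).1⟩
    · rintro ⟨rfl, hi⟩
      refine ⟨(l[i], i), ?_, rfl⟩
      rw [List.mem_zipIdx_iff_getElem?]
      exact List.getElem?_eq_getElem hi
  rw [cells, List.mem_append, key, key]
  cases j <;> simp [col]

lemma mem_edges {B : Board} {x y : Cell} : (x, y) ∈ edges B ↔ Link B x y := by
  rw [edges, List.mem_filter, List.mem_product, Bool.and_eq_true, nearB_iff, decide_eq_true_eq,
    mem_cells, mem_cells, tileB_eq, tileB_eq]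
  constructor
  · rintro ⟨⟨h1, h2⟩, h3, h4⟩
    obtain ⟨c, hc⟩ := tile_isSome.2 h1
    exact ⟨h3, c, hc, by rw [← h4]; exact hc⟩
  · rintro ⟨h1, c, h2, h3⟩
    exact ⟨⟨mem_len h2, mem_len h3⟩, h1, by rw [h2, h3]⟩

lemma mem_reach_edges {B : Board} {x y : Cell} : y ∈ reach (edges B) x ↔ y ∈ group B x := by
  rw [mem_reach]
  constructor
  · intro h
    exact ReflTransGen.mono (fun a b hab => mem_edges.1 hab) _ _ h
  · intro h
    exact ReflTransGen.mono (fun a b hab => mem_edges.2 hab) _ _ h

lemma keepB_eq {B : Board} {x : Cell} (l : List Bool) (j : Bool) :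
    keepB l j (reach (edges B) x) = keep l {i | (j, i) ∈ group B x} := by
  classical
  unfold keepB keep
  congr 1
  apply List.filter_congr
  intro p _
  have : (j, p.2) ∈ reach (edges B) x ↔ p.2 ∈ {i | (j, i) ∈ group B x} := mem_reach_edges
  by_cases h : (j, p.2) ∈ reach (edges B) x
  · simp [h, this.1 h]
  · have h' : (j, p.2) ∉ group B x := fun h'' => h (this.2 h'')
    simp [h, h']

lemma delB_eq (B : Board) (x : Cell) : delB B (reach (edges B) x) = del B (group B x) := by
  unfold delB del
  rw [keepB_eq, keepB_eq]

lemma Play.snoc {B E : Board} {s : List Cell} (hp : Play B s E) {x y : Cell} (h : Link E x y) :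
    Play B (s ++ [x]) (del E (group E x)) := by
  induction hp with
  | nil B => exact Play.cons h (Play.nil _)
  | cons h' _ ih => exact Play.cons h' (ih h)

lemma stuck_of_edges {B : Board} (h : (edges B).head? = none) : Stuck B := by
  intro x y hxy
  have := mem_edges.2 hxy
  rw [List.head?_eq_none_iff.1 h] at this
  exact absurd this List.not_mem_nil

lemma edges_of_stuck {B : Board} (h : Stuck B) : (edges B).head? = none := by
  rw [List.head?_eq_none_iff, List.eq_nil_iff_forall_not_mem]
  rintro ⟨x, y⟩ he
  exact h x y (mem_edges.1 he)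

lemma iterate_spec (B : Board) (n : ℕ) : Play B (step^[n] (B, [])).2 (step^[n] (B, [])).1 ∧
    (Stuck (step^[n] (B, [])).1 ∨ size (step^[n] (B, [])).1 + 2 * n ≤ size B) := by
  induction n with
  | zero => exact ⟨Play.nil B, Or.inr (by simp)⟩
  | succ n ih =>
    rw [Function.iterate_succ_apply']
    set s := step^[n] (B, []) with hs
    obtain ⟨h1, h2⟩ := ih
    cases he : (edges s.1).head? with
    | none =>
      have : step s = s := by rw [step, he]
      rw [this]
      exact ⟨h1, Or.inl (stuck_of_edges he)⟩
    | some e =>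
      have hstep : step s = (delB s.1 (reach (edges s.1) e.1), s.2 ++ [e.1]) := by rw [step, he]
      rw [hstep, delB_eq]
      have hl : Link s.1 e.1 e.2 := mem_edges.1 (List.mem_of_mem_head? he)
      refine ⟨h1.snoc hl, Or.inr ?_⟩
      have h3 := two_le_gone hl
      rcases h2 with h2 | h2
      · exact absurd hl (h2 _ _)
      · simp only
        omega

theorem algo_spec (B : Board) : ∃ E, Play B (algo B) E ∧ Stuck E := by
  obtain ⟨h1, h2⟩ := iterate_spec B (B.1 ++ B.2).length
  refine ⟨_, h1, ?_⟩
  rcases h2 with h2 | h2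
  · exact h2
  · have h3 : (B.1 ++ B.2).length = size B := List.length_append
    rw [h3] at h2 ⊢
    have h4 : size B = 0 := by omega
    rintro x y ⟨_, c, hx, _⟩
    have h5 := mem_len hx
    have h6 := size_eq (step^[size B] (B, [])).1 x.1
    omega

/-! ### running time -/

variable {α : Type*} [Enc α]

@[fun_prop] lemma pt_cells {B : α → Board} (hB : PT B) : PT fun a => cells (B a) := by
  refine PT.append ?_ ?_
  · exact PT.map (f := fun (_ : α) (p : Bool × ℕ) => (false, p.2)) (by fun_prop) (by fun_prop)
  · exact PT.map (f := fun (_ : α) (p : Bool × ℕ) => (true, p.2)) (by fun_prop) (by fun_prop)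

lemma pt_nearB {x y : α → Cell} (hx : PT x) (hy : PT y) : PT fun a => nearB (x a) (y a) := by
  have h1 : PT fun a => decide ((x a).1 = (y a).1) := PT.decide_eq (by fun_prop) (by fun_prop)
  have h2 : PT fun a => decide ((y a).2 = (x a).2 + 1) := PT.decide_eq (by fun_prop) (by fun_prop)
  have h3 : PT fun a => decide ((x a).2 = (y a).2 + 1) := PT.decide_eq (by fun_prop) (by fun_prop)
  have h4 : PT fun a => decide ((x a).2 = (y a).2) := PT.decide_eq (by fun_prop) (by fun_prop)
  exact PT.or (PT.and h1 (PT.or h2 h3)) (PT.and (PT.not h1) h4)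

lemma pt_tileB {B : α → Board} {x : α → Cell} (hB : PT B) (hx : PT x) :
    PT fun a => tileB (B a) (x a) := by
  exact PT.getElem? (PT.bif (by fun_prop) (by fun_prop) (by fun_prop)) (by fun_prop)

@[fun_prop] lemma pt_edges {B : α → Board} (hB : PT B) : PT fun a => edges (B a) := by
  refine PT.filter (f := fun (a : α) (e : Cell × Cell) =>
    nearB e.1 e.2 && decide (tileB (B a) e.1 = tileB (B a) e.2)) ?_
    (PT.product (by fun_prop) (by fun_prop))
  refine PT.and (pt_nearB (by fun_prop) (by fun_prop)) ?_
  exact PT.decide_eq (pt_tileB (by fun_prop) (by fun_prop)) (pt_tileB (by fun_prop) (by fun_prop))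

lemma pt_keepB {l : α → List Bool} {L : α → List Cell} (j : Bool) (hl : PT l) (hL : PT L) :
    PT fun a => keepB (l a) j (L a) := by
  refine PT.map (f := fun (_ : α) (p : Bool × ℕ) => p.1) (by fun_prop) ?_
  refine PT.filter (f := fun (a : α) (p : Bool × ℕ) => !decide ((j, p.2) ∈ L a)) ?_ (by fun_prop)
  refine PT.not ((PT.mem (f := fun q : α × (Bool × ℕ) => (j, q.2.2)) (l := fun q => L q.1)
    (by fun_prop) (by fun_prop)).congr fun q => ?_)
  exact decide_eq_decide.2 Iff.rfl

lemma pt_step : PT step := by
  have h := PT.optionCases (α := Board × List Cell) (β := Cell × Cell)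
    (o := fun s => (edges s.1).head?) (f := fun s => s)
    (g := fun s e => (delB s.1 (reach (edges s.1) e.1), s.2 ++ [e.1]))
    (PT.head? (by fun_prop)) (by fun_prop) (by
      have hr : PT fun p : (Board × List Cell) × (Cell × Cell) => reach (edges p.1.1) p.2.1 :=
        PT.reach (by fun_prop) (by fun_prop)
      refine PT.pair (PT.pair (pt_keepB false (by fun_prop) hr) (pt_keepB true (by fun_prop) hr)) ?_
      exact PT.append (by fun_prop) (PT.cons (by fun_prop) (by fun_prop)))
  refine h.congr fun s => ?_
  unfold step
  cases (edges s.1).head? <;> rfl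

lemma keepB_sublist (l : List Bool) (j : Bool) (L : List Cell) : (keepB l j L).Sublist l := by
  have h1 : (keepB l j L).Sublist (l.zipIdx.map Prod.fst) := List.Sublist.map _ List.filter_sublist
  have h2 : l.zipIdx.map Prod.fst = l := by simp
  rwa [h2] at h1

lemma iterate_sz (B : Board) (n : ℕ) :
    (step^[n] (B, [])).1.1.Sublist B.1 ∧ (step^[n] (B, [])).1.2.Sublist B.2 ∧
    (step^[n] (B, [])).2.length ≤ n ∧ ∀ x ∈ (step^[n] (B, [])).2, x.2 < (B.1 ++ B.2).length := by
  induction n with
  | zero => exact ⟨List.Sublist.refl _, List.Sublist.refl _, le_rfl, fun x hx => by simp at hx⟩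
  | succ n ih =>
    rw [Function.iterate_succ_apply']
    set s := step^[n] (B, []) with hs
    obtain ⟨h1, h2, h3, h4⟩ := ih
    cases he : (edges s.1).head? with
    | none =>
      have : step s = s := by rw [step, he]
      rw [this]
      exact ⟨h1, h2, by omega, h4⟩
    | some e =>
      have hstep : step s = (delB s.1 (reach (edges s.1) e.1), s.2 ++ [e.1]) := by rw [step, he]
      rw [hstep]
      have hl : Link s.1 e.1 e.2 := mem_edges.1 (List.mem_of_mem_head? he)
      refine ⟨(keepB_sublist _ _ _).trans h1, (keepB_sublist _ _ _).trans h2, ?_, ?_⟩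
      · rw [List.length_append, List.length_singleton]
        omega
      · intro x hx
        rw [List.mem_append, List.mem_singleton] at hx
        rcases hx with hx | rfl
        · exact h4 x hx
        · obtain ⟨_, c, hc, _⟩ := hl
          have h5 := mem_len hc
          have h6 := size_eq s.1 e.1.1
          have h7 : size s.1 ≤ (B.1 ++ B.2).length := by
            have := h1.length_le
            have := h2.length_le
            rw [List.length_append]
            unfold size
            omega
          omega

lemma sz_cell_le (x : Cell) : sz x ≤ 4 * x.2 + 5 := by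
  have h1 : sz x = sz x.1 + sz x.2 + 1 := sz_prod x
  have h2 := sz_bool_le x.1
  have h3 := sz_nat_le_self x.2
  omega

theorem pt_algo : PT algo := by
  have hlen : PT fun B : Board => (B.1 ++ B.2) := by fun_prop
  have h := PT.iterate_length (α := Board) (f := step) (s := fun B => (B, ([] : List Cell)))
    (l := fun B => B.1 ++ B.2)
    (B := fun B => sz B + ((B.1 ++ B.2).length * (4 * (B.1 ++ B.2).length + 6) + 1) + 1)
    pt_step (by fun_prop) hlen
    (by
      have h1 : PBd fun B : Board => (B.1 ++ B.2).length :=
        (PT.bdd hlen).mono fun B => (length_lt_sz _).le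
      exact ((PBd.sz.add ((h1.mul (((PBd.const 4).mul h1).add (PBd.const 6))).add
        (PBd.const 1))).add (PBd.const 1)))
    (by
      intro B i hi
      obtain ⟨h1, h2, h3, h4⟩ := iterate_sz B i
      set s := step^[i] (B, []) with hs
      have h5 : sz s = sz s.1 + sz s.2 + 1 := sz_prod s
      have h6 : sz s.1 ≤ sz B := by
        rw [sz_prod, sz_prod B]
        have := sz_sublist_le h1
        have := sz_sublist_le h2
        omega
      have h7 : sz s.2 ≤ s.2.length * (4 * (B.1 ++ B.2).length + 5 + 1) + 1 :=
        sz_list_le fun x hx => (sz_cell_le x).trans (by have := h4 x hx; omega)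
      have h8 : s.2.length * (4 * (B.1 ++ B.2).length + 5 + 1) ≤
          (B.1 ++ B.2).length * (4 * (B.1 ++ B.2).length + 6) :=
        Nat.mul_le_mul (h3.trans hi) le_rfl
      omega)
  exact PT.snd h

end Pool.Agent.H10C
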