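import Pool.Agent.Lib.H10C.Moves
import Pool.Agent.Lib.H10C.Algo

/-!
# A maximal play which deletes few tiles
-/

set_option autoImplicit false

namespace Pool.Agent.H10C

open Relation

/-- the number of neighbouring tiles of the same colour -/
def df : List Bool → ℕ
  | [] => 0
  | [_] => 0
  | a :: b :: l => (if a = b then 1 else 0) + df (b :: l)

lemma df_cons_le (a : Bool) (l : List Bool) : df (a :: l) ≤ df l + 1 := by
  cases l with
  | nil => simp [df]
  | cons b l => rw [df]; split <;> omega

lemma df_le_cons (a : Bool) (l : List Bool) : df l ≤ df (a :: l) := by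
  cases l with
  | nil => simp [df]
  | cons b l => rw [df]; omega

lemma df_append_le (A U : List Bool) : df (A ++ U) ≤ A.length + df U := by
  induction A with
  | nil => simp
  | cons a A ih =>
    have := df_cons_le a (A ++ U)
    rw [List.cons_append, List.length_cons]
    omega

open Classical in
/-- the number of runs -/
noncomputable def rt (l : List Bool) (G : Set ℕ) : ℕ :=
  ∑ i ∈ Finset.range l.length, if i ∈ G ∧ i + 1 ∉ G then 1 else 0

open Classical in
lemma rt_cons (a : Bool) (l : List Bool) (G : Set ℕ) :
    rt (a :: l) G = rt l {i | i + 1 ∈ G} + if 0 ∈ G ∧ 1 ∉ G then 1 else 0 := by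
  rw [rt, List.length_cons, Finset.sum_range_succ', rt]
  rfl

lemma df_keep (c : Bool) (l : List Bool) : ∀ (G : Set ℕ), (∀ i ∈ G, l[i]? = some c) →
    (∀ i ∈ G, l[i + 1]? = some c → i + 1 ∈ G) →
    (0 ∉ G → df (keep l G) + l.length ≤ (keep l G).length + df l + 2 * rt l G) ∧
    (0 ∈ G → df (keep l G) + l.length + 1 ≤ (keep l G).length + df l + 2 * rt l G) := by
  classical
  induction l with
  | nil =>
    intro G h1 _
    refine ⟨fun _ => by simp [keep_nil, df], fun h0 => ?_⟩
    have := h1 0 h0
    simp at this
  | cons a l ih =>
    intro G h1 h2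
    obtain ⟨ih1, ih2⟩ := ih {i | i + 1 ∈ G} (fun i hi => by simpa using h1 (i + 1) hi)
      (fun i hi h => h2 (i + 1) hi (by simpa using h))
    have hdf := df_le_cons a l
    constructor
    · intro h0
      rw [keep_cons_not_mem h0, rt_cons, if_neg (fun h => h0 h.1), List.length_cons,
        List.length_cons]
      by_cases hone : 1 ∈ G
      · have h3 := ih2 hone
        have h4 := df_cons_le a (keep l {i | i + 1 ∈ G})
        omega
      · have h3 := ih1 hone
        cases l with
        | nil =>
          rw [keep_nil] at h3 ⊢
          simp only [df]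
          omega
        | cons b l =>
          have h4 : (0 : ℕ) ∉ {i | i + 1 ∈ G} := hone
          rw [keep_cons_not_mem h4] at h3 ⊢
          simp only [df, List.length_cons] at h3 ⊢
          omega
    · intro h0
      rw [keep_cons_mem h0, rt_cons, List.length_cons]
      by_cases hone : 1 ∈ G
      · have h3 := ih2 hone
        rw [if_neg (fun h => h.2 hone)]
        have ha := h1 0 h0
        have hb := h1 1 hone
        cases l with
        | nil => simp at hb
        | cons b l =>
          simp only [List.getElem?_cons_zero, List.getElem?_cons_succ, Option.some.injEq] at ha hb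
          rw [df, ha, hb, if_pos rfl]
          rw [hb] at h3
          omega
      · have h3 := ih1 hone
        rw [if_pos ⟨h0, hone⟩]
        omega

/-- a cell of the right column in the group is connected inside of the group and the right column to
the height of a cell of the left column in the group -/
lemma run_contact {B : Board} {x : Cell} (hx : x.1 = false) {z : Cell} (hz : z ∈ group B x)
    (hz1 : z.1 = true) : ∃ h, (false, h) ∈ group B x ∧
      ∀ j, (h ≤ j ∧ j ≤ z.2) ∨ (z.2 ≤ j ∧ j ≤ h) → (true, j) ∈ group B x := by
  have hz' : ReflTransGen (Link B) x z := hz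
  clear hz
  induction hz' with
  | refl => rw [hx] at hz1; simp at hz1
  | @tail z w hxz hzw ih =>
    have hzG : z ∈ group B x := hxz
    have hwG : w ∈ group B x := group_closed hzG hzw
    obtain ⟨jz, iz⟩ := z
    obtain ⟨jw, iw⟩ := w
    simp only at hz1 ih
    subst hz1
    cases jz with
    | false =>
      rcases near_cases hzw.1 with h | ⟨h, _⟩ | h
      · simp at h
      · simp at h
      · have : iw = iz := by simpa using h
        subst this
        refine ⟨iw, hzG, fun j hj => ?_⟩
        have : j = iw := by simp only at hj; omega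
        rw [this]
        exact hwG
    | true =>
      obtain ⟨h, h1, h2⟩ := ih rfl
      refine ⟨h, h1, fun j hj => ?_⟩
      simp only at hj h2
      by_cases hjw : j = iw
      · rw [hjw]; exact hwG
      · apply h2
        rcases near_cases hzw.1 with h3 | ⟨h3, _⟩ | h3
        · have : iw = iz + 1 := by simpa using h3
          omega
        · have : iw = iz - 1 := by simpa using h3
          omega
        · simp at h3

lemma rt_le {B : Board} {x y : Cell} (h : Link B x y) (hx : x.1 = false) :
    rt B.2 (rows (group B x) true) + (keep B.1 (rows (group B x) false)).length ≤ B.1.length := by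
  classical
  obtain ⟨c, hc⟩ := group_color h
  have h1 := keep_length B.1 (rows (group B x) false)
  suffices h2 : rt B.2 (rows (group B x) true) ≤
      ((Finset.range B.1.length).filter (· ∈ rows (group B x) false)).card by omega
  have h3 : rt B.2 (rows (group B x) true) = ((Finset.range B.2.length).filter
      (fun i => i ∈ rows (group B x) true ∧ i + 1 ∉ rows (group B x) true)).card := by
    rw [rt, Finset.card_filter]
  rw [h3]
  have key : ∀ i ∈ (Finset.range B.2.length).filter
      (fun i => i ∈ rows (group B x) true ∧ i + 1 ∉ rows (group B x) true),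
      ∃ k, (false, k) ∈ group B x ∧ k ≤ i ∧ ∀ j, k ≤ j → j ≤ i → (true, j) ∈ group B x := by
    intro i hi
    rw [Finset.mem_filter] at hi
    obtain ⟨_, hi1, hi2⟩ := hi
    obtain ⟨k, hk1, hk2⟩ := run_contact hx (z := (true, i)) hi1 rfl
    have hki : k ≤ i := by
      by_contra hcon
      exact hi2 (hk2 (i + 1) (Or.inr ⟨by simp only; omega, by omega⟩))
    exact ⟨k, hk1, hki, fun j hj1 hj2 => hk2 j (Or.inl ⟨hj1, hj2⟩)⟩
  choose! f hf using key
  apply Finset.card_le_card_of_injOn f
  · intro i hi
    have h4 := (hf i hi).1
    rw [Finset.mem_coe, Finset.mem_filter, Finset.mem_range]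
    exact ⟨tile_isSome.1 ⟨c, hc _ h4⟩, h4⟩
  · intro i hi i' hi' hii
    by_contra hne
    have aux : ∀ i ∈ (Finset.range B.2.length).filter
        (fun i => i ∈ rows (group B x) true ∧ i + 1 ∉ rows (group B x) true),
        ∀ i' ∈ (Finset.range B.2.length).filter
        (fun i => i ∈ rows (group B x) true ∧ i + 1 ∉ rows (group B x) true),
        f i = f i' → ¬ i < i' := by
      intro i hi i' hi' hii hlt
      have h5 := hf i hi
      have h6 := hf i' hi'
      rw [Finset.mem_filter] at hi
      exact hi.2.2 (h6.2.2 (i + 1) (by omega) (by omega))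
    rcases Nat.lt_or_gt_of_ne hne with h5 | h5
    · exact aux i hi i' hi' hii h5
    · exact aux i' hi' i hi hii.symm h5

/-- a move which deletes a tile of the left column -/
lemma left_step {B : Board} {x y : Cell} (h : Link B x y) (hx : x.1 = false) :
    df (del B (group B x)).2 + B.2.length + 2 * (del B (group B x)).1.length ≤
      (del B (group B x)).2.length + df B.2 + 2 * B.1.length := by
  obtain ⟨c, hc⟩ := group_color h
  have h1 := rt_le h hx
  have h2 := df_keep c B.2 (rows (group B x) true) (fun i hi => hc _ hi) (fun i hi hi' =>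
    group_closed (z := (true, i)) hi ⟨Or.inl ⟨rfl, Or.inl rfl⟩, c, hc _ hi, hi'⟩)
  have e1 : (del B (group B x)).2 = keep B.2 (rows (group B x) true) := rfl
  have e2 : (del B (group B x)).1 = keep B.1 (rows (group B x) false) := rfl
  rw [e1, e2]
  by_cases h0 : 0 ∈ rows (group B x) true
  · have := h2.2 h0
    omega
  · have := h2.1 h0
    omega

/-- all runs have at least two tiles -/
inductive Big : List Bool → Prop
  | nil : Big []
  | two (c : Bool) (l : List Bool) (h : Big l) : Big (c :: c :: l)
  | three (c : Bool) (l : List Bool) (h : Big l) : Big (c :: c :: c :: l)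

lemma big_keep {l : List Bool} (h : Big l) : ∀ {G : Set ℕ} {c : Bool},
    (∀ i ∈ G, l[i]? = some c) → (∀ i ∈ G, l[i + 1]? = some c → i + 1 ∈ G) →
    (∀ i, i + 1 ∈ G → l[i]? = some c → i ∈ G) → Big (keep l G) := by
  classical
  induction h with
  | nil => intro G c _ _ _; exact Big.nil
  | two a l _ ih =>
    intro G c h1 h2 h3
    have ih' : Big (keep l {i | i + 1 ∈ {i | i + 1 ∈ G}}) := by
      apply ih (c := c)
      · intro i hi
        simpa using h1 (i + 1 + 1) hi
      · intro i hi h
        exact h2 (i + 1 + 1) hi (by simpa using h)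
      · intro i hi h
        exact h3 (i + 1 + 1) hi (by simpa using h)
    by_cases h0 : 0 ∈ G
    · have ha := h1 0 h0
      simp only [List.getElem?_cons_zero, Option.some.injEq] at ha
      have h4 : 1 ∈ G := h2 0 h0 (by simp [ha])
      rw [keep_cons_mem h0, keep_cons_mem (by exact h4)]
      exact ih'
    · have h4 : 1 ∉ G := by
        intro h4
        have ha := h1 1 h4
        simp only [List.getElem?_cons_succ, List.getElem?_cons_zero, Option.some.injEq] at ha
        exact h0 (h3 0 h4 (by simp [ha]))
      rw [keep_cons_not_mem h0, keep_cons_not_mem (by exact h4)]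
      exact Big.two _ _ ih'
  | three a l _ ih =>
    intro G c h1 h2 h3
    have ih' : Big (keep l {i | i + 1 ∈ {i | i + 1 ∈ {i | i + 1 ∈ G}}}) := by
      apply ih (c := c)
      · intro i hi
        simpa using h1 (i + 1 + 1 + 1) hi
      · intro i hi h
        exact h2 (i + 1 + 1 + 1) hi (by simpa using h)
      · intro i hi h
        exact h3 (i + 1 + 1 + 1) hi (by simpa using h)
    by_cases h0 : 0 ∈ G
    · have ha := h1 0 h0
      simp only [List.getElem?_cons_zero, Option.some.injEq] at ha
      have h4 : 1 ∈ G := h2 0 h0 (by simp [ha])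
      have h5 : 2 ∈ G := h2 1 h4 (by simp [ha])
      rw [keep_cons_mem h0, keep_cons_mem (by exact h4), keep_cons_mem (by exact h5)]
      exact ih'
    · have h4 : 1 ∉ G := by
        intro h4
        have ha := h1 1 h4
        simp only [List.getElem?_cons_succ, List.getElem?_cons_zero, Option.some.injEq] at ha
        exact h0 (h3 0 h4 (by simp [ha]))
      have h5 : 2 ∉ G := by
        intro h5
        have ha := h1 2 h5
        simp only [List.getElem?_cons_succ, List.getElem?_cons_zero, Option.some.injEq] at ha
        exact h4 (h3 1 h5 (by simp [ha]))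
      rw [keep_cons_not_mem h0, keep_cons_not_mem (by exact h4), keep_cons_not_mem (by exact h5)]
      exact Big.three _ _ ih'

lemma Big.link {l T : List Bool} (h : Big l) (hl : l ≠ []) :
    Link (l, T) (false, 0) (false, 1) := by
  cases h with
  | nil => exact absurd rfl hl
  | two c l _ => exact ⟨Or.inl ⟨rfl, Or.inl rfl⟩, c, rfl, rfl⟩
  | three c l _ => exact ⟨Or.inl ⟨rfl, Or.inl rfl⟩, c, rfl, rfl⟩

/-- above the height `w₀` the right column stays alternating -/
lemma alt_step {B : Board} {x y : Cell} (h : Link B x y) {w₀ : ℕ} (hw : B.1.length + 1 ≤ w₀)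
    (hA : Alt (B.2.drop w₀)) : Alt ((del B (group B x)).2.drop w₀) := by
  classical
  obtain ⟨c, hc⟩ := group_color h
  set G := group B x with hG
  have e1 : (del B G).2 = keep B.2 (rows G true) := rfl
  have hbig : ∀ i, w₀ < i → (true, i) ∉ G := by
    intro i hi hiG
    obtain ⟨z, hz, hl⟩ := group_neighbour h hiG
    obtain ⟨_, d, hd1, hd2⟩ := id hl
    rcases near_cases hl.1 with rfl | ⟨rfl, _⟩ | rfl
    · rw [tile_eq] at hd1 hd2
      have h1 : (B.2.drop w₀)[i - w₀]? = some d := by
        rw [List.getElem?_drop, show w₀ + (i - w₀) = i by omega]; exact hd1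
      have h2 : (B.2.drop w₀)[i - w₀ + 1]? = some d := by
        rw [List.getElem?_drop, show w₀ + (i - w₀ + 1) = i + 1 by omega]; exact hd2
      exact hA _ _ _ h1 h2 rfl
    · rw [tile_eq] at hd1 hd2
      have h1 : (B.2.drop w₀)[i - 1 - w₀]? = some d := by
        rw [List.getElem?_drop, show w₀ + (i - 1 - w₀) = i - 1 by omega]; exact hd2
      have h2 : (B.2.drop w₀)[i - 1 - w₀ + 1]? = some d := by
        rw [List.getElem?_drop, show w₀ + (i - 1 - w₀ + 1) = i by omega]; exact hd1
      exact hA _ _ _ h1 h2 rfl
    · have := tile_isSome.1 ⟨d, hd2⟩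
      have h1 : (col B (!true)).length = B.1.length := rfl
      rw [h1] at this
      omega
  rcases Nat.lt_or_ge w₀ B.2.length with hlt | hge
  · have hU : B.2 = B.2.take w₀ ++ B.2.drop w₀ := (List.take_append_drop w₀ B.2).symm
    have hAl : (B.2.take w₀).length = w₀ := by rw [List.length_take]; omega
    have e2 : keep B.2 (rows G true) = keep (B.2.take w₀) (rows G true) ++
        keep (B.2.drop w₀) {i | w₀ + i ∈ rows G true} := by
      conv_lhs => rw [hU]
      rw [keep_append, hAl]
    have h1 := keep_length_le (B.2.take w₀) (rows G true)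
    rw [e1, e2, List.drop_append, List.drop_of_length_le
      (l := keep (B.2.take w₀) (rows G true)) (by omega), List.nil_append]
    apply Alt.drop
    cases hd : B.2.drop w₀ with
    | nil =>
      rw [keep_nil, ← hd]
      exact hA
    | cons b U =>
      rw [hd] at hA
      have h3 : keep U {i | i + 1 ∈ {i | w₀ + i ∈ rows G true}} = U :=
        keep_eq_self fun i _ hi => hbig (w₀ + (i + 1)) (by omega) hi
      by_cases h0 : 0 ∈ {i | w₀ + i ∈ rows G true}
      · rw [keep_cons_mem h0, h3]
        exact hA.tail
      · rw [keep_cons_not_mem h0, h3]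
        exact hA
  · have h1 := keep_length_le B.2 (rows G true)
    rw [e1, List.drop_of_length_le (by omega)]
    intro i u v hu _
    simp at hu

/-- the left column is emptied -/
lemma stage_one (w₀ : ℕ) : ∀ (r : ℕ) (S T : List Bool), S.length ≤ r → Big S →
    S.length + 1 ≤ w₀ → Alt (T.drop w₀) →
    ∃ T', Reach (S, T) ([], T') ∧ Alt (T'.drop w₀) ∧
      T.length + df T' ≤ T'.length + df T + 2 * S.length := by
  classical
  intro r
  induction r with
  | zero =>
    intro S T hS _ _ hA
    have : S = [] := List.length_eq_zero_iff.1 (by omega)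
    subst this
    exact ⟨T, Reach.refl _, hA, by simp⟩
  | succ r ih =>
    intro S T hS hB hw hA
    by_cases hne : S = []
    · subst hne
      exact ⟨T, Reach.refl _, hA, by simp⟩
    · have hl := hB.link (T := T) hne
      obtain ⟨c, hc⟩ := group_color hl
      set B : Board := (S, T) with hBdef
      have e1 : (del B (group B (false, 0))).1 = keep S (rows (group B (false, 0)) false) := rfl
      have h1 := left_step hl rfl
      have h2 := alt_step hl hw hA
      have h3 : (del B (group B (false, 0))).1.length + 1 ≤ S.length := by
        rw [e1]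
        have h4 := keep_length S (rows (group B (false, 0)) false)
        have h5 : 0 < ((Finset.range S.length).filter
            (· ∈ rows (group B (false, 0)) false)).card := by
          apply Finset.card_pos.2
          refine ⟨0, ?_⟩
          rw [Finset.mem_filter, Finset.mem_range]
          exact ⟨List.length_pos_iff.2 hne, mem_group_self _ _⟩
        omega
      have h4 : Big (del B (group B (false, 0))).1 := by
        rw [e1]
        apply big_keep hB (c := c)
        · intro i hi
          exact hc _ hi
        · intro i hi hi'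
          exact group_closed (z := (false, i)) hi ⟨Or.inl ⟨rfl, Or.inl rfl⟩, c, hc _ hi, hi'⟩
        · intro i hi hi'
          exact group_closed (z := (false, i + 1)) hi ⟨Or.inl ⟨rfl, Or.inr rfl⟩, c, hc _ hi, hi'⟩
      obtain ⟨T', h5, h6, h7⟩ := ih (del B (group B (false, 0))).1 (del B (group B (false, 0))).2
        (by omega) h4 (by omega) h2
      have e2 : B.1 = S := rfl
      have e3 : B.2 = T := rfl
      rw [e2, e3] at h1
      exact ⟨T', (Reach.single hl).trans h5, h6, by omega⟩

/-- a maximal play which deletes few tiles -/
theorem bad_play {S T : List Bool} {w₀ : ℕ} (hS : Big S) (hw : S.length + 1 ≤ w₀)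
    (hT : Alt (T.drop w₀)) : ∃ E, Reach (S, T) E ∧ Stuck E ∧ size E ≤ T.length ∧
      S.length + T.length ≤ size E + 3 * S.length + df T + 2 * w₀ := by
  obtain ⟨T', h1, h2, h3⟩ := stage_one w₀ S.length S T le_rfl hS hw hT
  obtain ⟨E, h4, h5⟩ := algo_spec ([], T')
  have h6 := sq_bound h4 true 5 (X := T'.take w₀) (T := T'.drop w₀) (Y := [])
    (by rw [List.append_nil, List.take_append_drop]; rfl) h2 (by simp [col])
  have h7 : size (([], T') : Board) = T'.length := by simp [size]
  have h8 : (col (([], T') : Board) (!true)).length = 0 := rfl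
  have h9 : (T'.take w₀).length ≤ w₀ := by rw [List.length_take]; omega
  rw [h7, h8, List.length_nil] at h6
  have h10 : size E ≤ size (([], T') : Board) := by
    have := col_play_le h4 true
    have h11 := col_play_le h4 false
    have h12 : col (([], T') : Board) true = T' := rfl
    have h13 : col (([], T') : Board) false = [] := rfl
    rw [h12] at this
    rw [h13] at h11
    have h14 := size_eq E true
    rw [h7, h14]
    simp only [List.length_nil, Bool.not_true] at h11 ⊢
    omega
  obtain ⟨s, hs⟩ := h1
  have h15 : T'.length ≤ T.length := by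
    have := col_play_le hs true
    exact this
  refine ⟨E, Reach.trans ⟨s, hs⟩ ⟨_, h4⟩, h5, ?_, ?_⟩
  · rw [h7] at h10
    omega
  · omega

end Pool.Agent.H10C
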