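import Pool.Agent.Lib.H10C.Defs

/-!
# Basic lemmas on boards and deletions
-/

set_option autoImplicit false

namespace Pool.Agent.H10C

open Relation

lemma keep_nil (S : Set ℕ) : keep [] S = [] := rfl

lemma keep_cons (a : Bool) (l : List Bool) (S : Set ℕ) [Decidable (0 ∈ S)] :
    keep (a :: l) S = if 0 ∈ S then keep l {i | i + 1 ∈ S} else a :: keep l {i | i + 1 ∈ S} := by
  classical
  have h : keep l {i | i + 1 ∈ S} =
      ((l.zipIdx 1).filter fun p => decide (p.2 ∉ S)).map Prod.fst := by
    rw [show l.zipIdx 1 = (l.zipIdx 0).map (fun p => (p.1, p.2 + 1)) from List.zipIdx_succ]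
    rw [List.filter_map, List.map_map]
    unfold keep
    congr 1
  rw [h]
  unfold keep
  rw [List.zipIdx_cons, List.filter_cons]
  by_cases h0 : (0 : ℕ) ∈ S
  · simp [h0]
  · simp [h0]

lemma keep_cons_mem {a : Bool} {l : List Bool} {S : Set ℕ} (h : 0 ∈ S) :
    keep (a :: l) S = keep l {i | i + 1 ∈ S} := by
  classical
  rw [keep_cons, if_pos h]

lemma keep_cons_not_mem {a : Bool} {l : List Bool} {S : Set ℕ} (h : 0 ∉ S) :
    keep (a :: l) S = a :: keep l {i | i + 1 ∈ S} := by
  classical
  rw [keep_cons, if_neg h]

lemma keep_append (l l' : List Bool) (S : Set ℕ) :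
    keep (l ++ l') S = keep l S ++ keep l' {i | l.length + i ∈ S} := by
  classical
  induction l generalizing S with
  | nil => simp [keep_nil]
  | cons a l ih =>
    have hS : {i | l.length + i ∈ {i | i + 1 ∈ S}} = {i | (a :: l).length + i ∈ S} := by
      ext i
      simp only [Set.mem_ofPred_eq, List.length_cons]
      rw [show l.length + i + 1 = l.length + 1 + i by ring]
    rw [List.cons_append, keep_cons, keep_cons, ih, hS]
    split <;> simp

lemma keep_congr {l : List Bool} {S T : Set ℕ} (h : ∀ i < l.length, i ∈ S ↔ i ∈ T) :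
    keep l S = keep l T := by
  classical
  induction l generalizing S T with
  | nil => rfl
  | cons a l ih =>
    rw [keep_cons, keep_cons]
    have h0 := h 0 (by simp)
    have h1 : keep l {i | i + 1 ∈ S} = keep l {i | i + 1 ∈ T} :=
      ih fun i hi => h (i + 1) (by simpa using hi)
    rw [h1]
    by_cases hS : 0 ∈ S
    · rw [if_pos hS, if_pos (h0.1 hS)]
    · rw [if_neg hS, if_neg (fun hT => hS (h0.2 hT))]

lemma keep_empty (l : List Bool) : keep l ∅ = l := by
  induction l with
  | nil => rfl
  | cons a l ih =>
    rw [keep_cons_not_mem (by simp)]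
    congr 1

lemma keep_eq_self {l : List Bool} {S : Set ℕ} (h : ∀ i < l.length, i ∉ S) : keep l S = l := by
  rw [keep_congr (T := ∅) (fun i hi => by simp [h i hi]), keep_empty]

lemma keep_eq_nil {l : List Bool} {S : Set ℕ} (h : ∀ i < l.length, i ∈ S) : keep l S = [] := by
  induction l generalizing S with
  | nil => rfl
  | cons a l ih =>
    rw [keep_cons_mem (h 0 (by simp))]
    exact ih fun i hi => h (i + 1) (by simpa using hi)

lemma keep_length (l : List Bool) (S : Set ℕ) [DecidablePred (· ∈ S)] :
    (keep l S).length + ((Finset.range l.length).filter (· ∈ S)).card = l.length := by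
  classical
  induction l using List.reverseRecOn with
  | nil => simp [keep_nil]
  | append_singleton l a ih =>
    rw [keep_append, List.length_append, List.length_append, List.length_singleton,
      Finset.range_add_one, Finset.filter_insert]
    by_cases h : l.length ∈ S
    · rw [if_pos h, Finset.card_insert_of_notMem (by simp), keep_eq_nil (l := [a])]
      · simp only [List.length_nil]; omega
      · intro i hi
        simp only [List.length_singleton, Nat.lt_one_iff] at hi
        subst hi
        exact h
    · rw [if_neg h, keep_eq_self (l := [a])]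
      · simp only [List.length_singleton]; omega
      · intro i hi
        simp only [List.length_singleton, Nat.lt_one_iff] at hi
        subst hi
        exact h

lemma keep_length_le (l : List Bool) (S : Set ℕ) : (keep l S).length ≤ l.length := by
  classical
  have := keep_length l S
  omega

/-- nothing is deleted below the height `e` -/
lemma keep_getElem?_low {l : List Bool} {S : Set ℕ} {e : ℕ} (h : ∀ i < e, i ∉ S) {i : ℕ}
    (hi : i < e) : (keep l S)[i]? = l[i]? := by
  induction l generalizing S e i with
  | nil => rfl
  | cons a l ih =>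
    rw [keep_cons_not_mem (h 0 (by omega))]
    cases i with
    | zero => rfl
    | succ i =>
      rw [List.getElem?_cons_succ, List.getElem?_cons_succ]
      exact ih (e := e - 1) (fun i hi => h (i + 1) (by omega)) (by omega)

/-- the tile above the lowest deleted run falls to the bottom of the run -/
lemma keep_getElem?_first {l : List Bool} {S : Set ℕ} {p q : ℕ} (hpq : p ≤ q)
    (h1 : ∀ i < p, i ∉ S) (h2 : ∀ i, p ≤ i → i < q → i ∈ S) (h3 : q ∉ S) :
    (keep l S)[p]? = l[q]? := by
  induction l generalizing S p q with
  | nil => rfl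
  | cons a l ih =>
    cases p with
    | zero =>
      cases q with
      | zero =>
        rw [keep_cons_not_mem h3]
        rfl
      | succ q =>
        rw [keep_cons_mem (h2 0 le_rfl (by omega)), List.getElem?_cons_succ]
        exact ih (Nat.zero_le q) (fun i hi => by omega)
          (fun i _ hi => h2 (i + 1) (by omega) (by omega)) h3
    | succ p =>
      obtain ⟨q, rfl⟩ : ∃ r, q = r + 1 := ⟨q - 1, by omega⟩
      rw [keep_cons_not_mem (h1 0 (by omega)), List.getElem?_cons_succ, List.getElem?_cons_succ]
      exact ih (by omega) (fun i hi => h1 (i + 1) (by omega))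
        (fun i hi hi' => h2 (i + 1) (by omega) (by omega)) h3

/-! ### boards -/

/-- the heights in column `j` which belong to `S` -/
def rows (S : Set Cell) (j : Bool) : Set ℕ := {i | (j, i) ∈ S}

lemma mem_rows {S : Set Cell} {j : Bool} {i : ℕ} : i ∈ rows S j ↔ (j, i) ∈ S := Iff.rfl

lemma col_del (B : Board) (S : Set Cell) (j : Bool) : col (del B S) j = keep (col B j) (rows S j) := by
  cases j <;> rfl

lemma tile_eq (B : Board) (j : Bool) (i : ℕ) : tile B (j, i) = (col B j)[i]? := rfl

lemma tile_isSome {B : Board} {j : Bool} {i : ℕ} : (∃ c, tile B (j, i) = some c) ↔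
    i < (col B j).length := by
  rw [tile_eq]
  constructor
  · rintro ⟨c, hc⟩
    exact (List.getElem?_eq_some_iff.1 hc).1
  · intro h
    exact ⟨_, List.getElem?_eq_getElem h⟩

lemma tile_none {B : Board} {j : Bool} {i : ℕ} : tile B (j, i) = none ↔
    (col B j).length ≤ i := by
  rw [tile_eq, List.getElem?_eq_none_iff]

lemma size_eq (B : Board) (j : Bool) : size B = (col B j).length + (col B (!j)).length := by
  cases j
  · rfl
  · exact Nat.add_comm _ _

lemma Near.symm {x y : Cell} (h : Near x y) : Near y x := by
  rcases h with ⟨h1, h2⟩ | ⟨h1, h2⟩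
  · exact Or.inl ⟨h1.symm, h2.symm⟩
  · exact Or.inr ⟨fun h => h1 h.symm, h2.symm⟩

lemma Link.symm {B : Board} {x y : Cell} (h : Link B x y) : Link B y x := by
  obtain ⟨h1, c, h2, h3⟩ := h
  exact ⟨h1.symm, c, h3, h2⟩

lemma Link.ne {B : Board} {x y : Cell} (h : Link B x y) : x ≠ y := by
  rintro rfl
  rcases h.1 with ⟨_, h2 | h2⟩ | ⟨h1, _⟩
  · omega
  · omega
  · exact h1 rfl

lemma mem_group_self (B : Board) (x : Cell) : x ∈ group B x := ReflTransGen.refl

lemma group_closed {B : Board} {x z w : Cell} (hz : z ∈ group B x) (h : Link B z w) :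
    w ∈ group B x := ReflTransGen.tail hz h

lemma group_color {B : Board} {x y : Cell} (h : Link B x y) :
    ∃ c, ∀ z ∈ group B x, tile B z = some c := by
  obtain ⟨_, c, hx, _⟩ := h
  refine ⟨c, fun z hz => ?_⟩
  induction hz with
  | refl => exact hx
  | tail _ h ih =>
    obtain ⟨_, d, h1, h2⟩ := h
    rw [ih, Option.some.injEq] at h1
    rw [h2, h1]

/-- every cell of a group with two tiles has a neighbour in the group -/
lemma group_neighbour {B : Board} {x y z : Cell} (h : Link B x y) (hz : z ∈ group B x) :
    ∃ w ∈ group B x, Link B z w := by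
  have hz' : ReflTransGen (Link B) x z := hz
  rcases ReflTransGen.cases_tail hz' with rfl | ⟨w, hw, hwz⟩
  · exact ⟨y, group_closed (mem_group_self B _) h, h⟩
  · exact ⟨w, hw, hwz.symm⟩

/-- a tile near to a group and outside of it has the other colour -/
lemma near_group {B : Board} {x z w : Cell} {c : Bool} (hc : ∀ z ∈ group B x, tile B z = some c)
    (hz : z ∈ group B x) (hw : w ∉ group B x) (hn : Near z w) (d : Bool) (hd : tile B w = some d) :
    d = !c := by
  by_contra hne
  have hdc : d = c := by cases d <;> cases c <;> simp_all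
  exact hw (group_closed hz ⟨hn, c, hc z hz, by rw [hd, hdc]⟩)

end Pool.Agent.H10C
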