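import Pool.Agent.Lib.H10C.Moves

/-!
# The cascade

The left column carries blocks of three tiles, the right one alternates except for `m` pairs.  All
pairs being in the right position, the pair number `i` can make `2 ^ i` moves.
-/

set_option autoImplicit false

namespace Pool.Agent.H10C

/-! ### alternating columns -/

/-- the alternating column of height `n` with the bottom tile `c` -/
def alt : Bool → ℕ → List Bool
  | _, 0 => []
  | c, n + 1 => c :: alt (!c) n

/-- the top tile of `alt c n` -/
def nx (c : Bool) (n : ℕ) : Bool := !(c ^^ n.bodd)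

lemma nx_succ (c : Bool) (n : ℕ) : nx c (n + 1) = !(nx c n) := by
  simp only [nx, Nat.bodd_succ]
  cases c <;> cases n.bodd <;> rfl

lemma nx_not (c : Bool) (n : ℕ) : nx (!c) n = !(nx c n) := by
  simp only [nx]
  cases c <;> cases n.bodd <;> rfl

lemma alt_length (n : ℕ) : ∀ c, (alt c n).length = n := by
  induction n with
  | zero => intro c; rfl
  | succ n ih => intro c; rw [alt, List.length_cons, ih]

lemma alt_succ' (n : ℕ) : ∀ c, alt c (n + 1) = alt c n ++ [nx c (n + 1)] := by
  induction n with
  | zero => intro c; cases c <;> rfl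
  | succ n ih =>
    intro c
    rw [alt, ih (!c), alt, List.cons_append, nx_not, nx_succ c (n + 1)]

lemma alt_last {n : ℕ} (c : Bool) (A : List Bool) (i : ℕ) (u : Bool)
    (h : (A ++ alt c (n + 1)).length = i + 1) (hu : (A ++ alt c (n + 1))[i]? = some u) :
    u = nx c (n + 1) := by
  rw [alt_succ', ← List.append_assoc] at hu h
  rw [List.length_append, List.length_singleton] at h
  rw [List.getElem?_append_right (by omega)] at hu
  have : i - (A ++ alt c n).length = 0 := by omega
  rw [this] at hu
  simpa using hu.symm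

lemma alt_split (h n : ℕ) : ∀ c, alt c (h + 1 + n) = alt c h ++ (c ^^ h.bodd) :: alt (nx c h) n := by
  induction h with
  | zero =>
    intro c
    rw [show 0 + 1 + n = n + 1 by omega, alt, alt, List.nil_append]
    cases c <;> rfl
  | succ h ih =>
    intro c
    rw [show h + 1 + 1 + n = (h + 1 + n) + 1 by omega, alt, ih (!c), alt, List.cons_append,
      Nat.bodd_succ, nx_not, nx_succ]
    cases c <;> cases h.bodd <;> rfl

/-! ### the right column -/

/-- the column with the alternating segments of heights `g 0, ..., g m`, the top tile of each segment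
having the colour of the bottom tile of the next one, below the column `R` -/
def seg : ℕ → Bool → (ℕ → ℕ) → List Bool → List Bool
  | 0, c, g, R => alt c (g 0) ++ R
  | m + 1, c, g, R => alt c (g 0) ++ seg m (nx c (g 0)) (fun i => g (i + 1)) R

/-- the indicator of `0` -/
def e0 (i : ℕ) : ℕ := if i = 0 then 1 else 0

/-- what the cascade takes from the segments -/
def vv : ℕ → ℕ → ℕ
  | 0, _ => 0
  | _ + 1, 0 => 1
  | m + 1, i + 1 => 2 * vv m i + e0 i

/-- the sum of the first `m` entries -/
def sm : ℕ → (ℕ → ℕ) → ℕ
  | 0, _ => 0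
  | m + 1, g => g 0 + sm m fun i => g (i + 1)

lemma sm_succ (m : ℕ) (g : ℕ → ℕ) : sm (m + 1) g = g 0 + sm m (fun i => g (i + 1)) := rfl

lemma seg_e0 (m : ℕ) : ∀ (c : Bool) (g : ℕ → ℕ) (R : List Bool),
    seg m c (fun i => g i + e0 i) R = c :: seg m (!c) g R := by
  cases m with
  | zero => intro c g R; simp [seg, e0, alt]
  | succ m =>
    intro c g R
    simp only [seg, e0, alt, if_true, List.cons_append, Nat.succ_ne_zero, if_false, Nat.add_zero]
    rw [nx_succ, nx_not]

lemma sm_mono (m : ℕ) : ∀ {g h : ℕ → ℕ}, (∀ i < m, g i ≤ h i) → sm m g ≤ sm m h := by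
  induction m with
  | zero => intro g h _; exact le_rfl
  | succ m ih =>
    intro g h hgh
    exact Nat.add_le_add (hgh 0 (by omega)) (ih fun i hi => hgh (i + 1) (by omega))

lemma sm_add (m : ℕ) : ∀ (g h : ℕ → ℕ), sm m (fun i => g i + h i) = sm m g + sm m h := by
  induction m with
  | zero => intro g h; rfl
  | succ m ih =>
    intro g h
    simp only [sm]
    rw [ih]
    omega

lemma sm_succ' (m : ℕ) : ∀ (g : ℕ → ℕ), sm (m + 1) g = sm m g + g m := by
  induction m with
  | zero => intro g; simp [sm]
  | succ m ih =>
    intro g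
    rw [sm, ih, sm]
    omega

lemma sm_congr (m : ℕ) : ∀ {g h : ℕ → ℕ}, (∀ i < m, g i = h i) → sm m g = sm m h := by
  induction m with
  | zero => intro g h _; rfl
  | succ m ih =>
    intro g h hgh
    rw [sm, sm, hgh 0 (by omega), ih fun i hi => hgh (i + 1) (by omega)]

lemma seg_length (m : ℕ) : ∀ (c : Bool) (g : ℕ → ℕ) (R : List Bool),
    (seg m c g R).length = sm (m + 1) g + R.length := by
  induction m with
  | zero => intro c g R; simp [seg, sm, alt_length]
  | succ m ih =>
    intro c g R
    rw [seg, List.length_append, ih, alt_length, sm_succ (m + 1)]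
    omega

lemma seg_congr (m : ℕ) : ∀ (c : Bool) {g h : ℕ → ℕ} (R : List Bool), (∀ i ≤ m, g i = h i) →
    seg m c g R = seg m c h R := by
  induction m with
  | zero => intro c g h R hgh; rw [seg, seg, hgh 0 le_rfl]
  | succ m ih =>
    intro c g h R hgh
    rw [seg, seg, hgh 0 (by omega), ih _ R fun i hi => hgh (i + 1) (by omega)]

lemma seg_head (m : ℕ) (c : Bool) (g : ℕ → ℕ) (R : List Bool) (h : 1 ≤ g 0) :
    (seg m c g R)[0]? = some c := by
  obtain ⟨n, hn⟩ : ∃ n, g 0 = n + 1 := ⟨g 0 - 1, by omega⟩
  cases m with
  | zero => rw [seg, hn, alt]; rfl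
  | succ m => rw [seg, hn, alt]; rfl

/-- the colour of the bottom tile of the segment number `m` -/
def sc (m : ℕ) (c : Bool) (g : ℕ → ℕ) : Bool := (c ^^ (sm m g).bodd) ^^ m.bodd

lemma sc_succ (m : ℕ) (c : Bool) (g : ℕ → ℕ) :
    sc (m + 1) c g = sc m (nx c (g 0)) (fun i => g (i + 1)) := by
  simp only [sc, sm, nx, Nat.bodd_add, Nat.bodd_succ]
  cases c <;> cases (g 0).bodd <;> cases (sm m fun i => g (i + 1)).bodd <;> cases m.bodd <;> rfl

lemma sc_next (m : ℕ) (c : Bool) (g : ℕ → ℕ) : sc (m + 1) c g = nx (sc m c g) (g m) := by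
  simp only [sc, sm_succ', nx, Nat.bodd_add, Nat.bodd_succ]
  cases c <;> cases (g m).bodd <;> cases (sm m g).bodd <;> cases m.bodd <;> rfl

lemma seg_snoc (m : ℕ) : ∀ (c : Bool) (g : ℕ → ℕ) (R : List Bool),
    seg (m + 1) c g R = seg m c g (alt (sc (m + 1) c g) (g (m + 1)) ++ R) := by
  induction m with
  | zero =>
    intro c g R
    rw [seg, seg, seg, sc_next]
    congr 2
    simp only [sc, sm]
    cases c <;> rfl
  | succ m ih =>
    intro c g R
    rw [seg, ih, seg, ← sc_succ]

/-! ### positions -/

/-- the pair with the upper tile at the height `G` above the unit boundary and the colour `x` has just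
moved -/
def w (k G : ℕ) (x : Bool) : Prop := (G + 2 * k + 3 * x.toNat) % 6 ≤ 1

lemma w_three (k G : ℕ) (x : Bool) : w k (G + 3) (!x) ↔ w k G x := by
  cases x <;> simp [w] <;> omega

lemma w_two (k G : ℕ) (x : Bool) : w (k + 1) G x ↔ w k (G + 2) x := by
  simp only [w]
  rw [show G + 2 * (k + 1) = G + 2 + 2 * k by ring]

/-- all pairs have just moved -/
def W (k : ℕ) : ℕ → ℕ → Bool → (ℕ → ℕ) → Prop
  | 0, _, _, _ => True
  | m + 1, l, c, g => w k (l + g 0) (nx c (g 0)) ∧
      W k m (l + g 0) (nx c (g 0)) (fun i => g (i + 1))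

lemma W_e0 (k m l : ℕ) (c : Bool) (g : ℕ → ℕ) :
    W k m (l + 1) (!c) g ↔ W k m l c (fun i => g i + e0 i) := by
  cases m with
  | zero => exact Iff.rfl
  | succ m =>
    simp only [W, e0, if_true, Nat.succ_ne_zero, if_false, Nat.add_zero]
    rw [nx_succ, nx_not, show l + 1 + g 0 = l + (g 0 + 1) by omega]

lemma vv_succ_fun (m : ℕ) (g : ℕ → ℕ) :
    (fun i => g (i + 1) + vv (m + 1) (i + 1)) = fun i => (g (i + 1) + vv m i + e0 i) + vv m i := by
  funext i
  simp only [vv]
  omega

lemma W_vv (k m : ℕ) : ∀ (l : ℕ) (c : Bool) (g : ℕ → ℕ),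
    W k m (l + 2) c (fun i => g i + vv m i) ↔ W k m l c g := by
  induction m with
  | zero => intro l c g; exact Iff.rfl
  | succ m ih =>
    intro l c g
    have h1 : nx c (g 0 + 1) = !(nx c (g 0)) := nx_succ _ _
    simp only [W]
    rw [vv_succ_fun]
    simp only [vv]
    rw [h1, show l + 2 + (g 0 + 1) = l + g 0 + 3 by omega, w_three]
    refine and_congr_right fun _ => ?_
    rw [show l + g 0 + 3 = (l + g 0 + 1) + 2 by omega,
      ih (l + g 0 + 1) _ (fun i => g (i + 1) + vv m i + e0 i)]
    have h2 := W_e0 k m (l + g 0 + 1) (!(nx c (g 0))) (fun i => g (i + 1) + vv m i)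
    rw [Bool.not_not] at h2
    rw [← h2, show l + g 0 + 1 + 1 = l + g 0 + 2 by omega]
    exact ih (l + g 0) _ _

lemma W_two (k m : ℕ) : ∀ (l : ℕ) (c : Bool) (g : ℕ → ℕ), W (k + 1) m l c g ↔ W k m (l + 2) c g := by
  induction m with
  | zero => intro l c g; exact Iff.rfl
  | succ m ih =>
    intro l c g
    simp only [W]
    rw [w_two, ih, show l + g 0 + 2 = l + 2 + g 0 by omega]

lemma W_snoc (k m : ℕ) : ∀ (l : ℕ) (c : Bool) (g : ℕ → ℕ),
    W k (m + 1) l c g ↔ W k m l c g ∧ w k (l + sm (m + 1) g) (sc (m + 1) c g) := by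
  induction m with
  | zero =>
    intro l c g
    rw [sc_next]
    simp [W, sm, sc]
  | succ m ih =>
    intro l c g
    rw [W, ih, W, and_assoc]
    have : l + g 0 + sm (m + 1) (fun i => g (i + 1)) = l + sm (m + 1 + 1) g := by
      rw [sm.eq_def (m + 1 + 1)]
      simp only
      omega
    rw [this, sc_succ (m + 1)]

lemma W_congr (k m : ℕ) : ∀ (l : ℕ) (c : Bool) {g h : ℕ → ℕ}, (∀ i < m, g i = h i) →
    (W k m l c g ↔ W k m l c h) := by
  induction m with
  | zero => intro l c g h _; exact Iff.rfl
  | succ m ih =>
    intro l c g h hgh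
    rw [W, W, hgh 0 (by omega), ih _ _ fun i hi => hgh (i + 1) (by omega)]

/-! ### the left column -/

/-- `k` times the two tiles `false, true` below the column `R` -/
def bs : ℕ → List Bool → List Bool
  | 0, R => R
  | k + 1, R => false :: true :: bs k R

/-- `k` times the tiles `false, false, true, true` below the column `R` -/
def xs : ℕ → List Bool → List Bool
  | 0, R => R
  | k + 1, R => false :: false :: true :: true :: xs k R

/-- `J` times three tiles `false` and three tiles `true` below the column `R` -/
def tri : ℕ → List Bool → List Bool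
  | 0, R => R
  | J + 1, R => false :: false :: false :: true :: true :: true :: tri J R

/-- `t` pairs of tiles of alternating colours -/
def top : ℕ → List Bool
  | 0 => []
  | t + 1 => top t ++ [t.bodd, t.bodd]

lemma bs_length (k : ℕ) (R : List Bool) : (bs k R).length = 2 * k + R.length := by
  induction k with
  | zero => simp [bs]
  | succ k ih => rw [bs, List.length_cons, List.length_cons, ih]; ring

lemma xs_length (k : ℕ) (R : List Bool) : (xs k R).length = 4 * k + R.length := by
  induction k with
  | zero => simp [xs]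
  | succ k ih =>
    rw [xs, List.length_cons, List.length_cons, List.length_cons, List.length_cons, ih]; ring

lemma tri_length (J : ℕ) (R : List Bool) : (tri J R).length = 6 * J + R.length := by
  induction J with
  | zero => simp [tri]
  | succ J ih => simp only [tri, List.length_cons, ih]; ring

lemma top_length (t : ℕ) : (top t).length = 2 * t := by
  induction t with
  | zero => rfl
  | succ t ih => rw [top, List.length_append, ih]; simp; ring

lemma bs_append (k : ℕ) (R R' : List Bool) : bs k (R ++ R') = bs k R ++ R' := by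
  induction k with
  | zero => rfl
  | succ k ih => rw [bs, bs, ih]; rfl

lemma xs_append (k : ℕ) (R R' : List Bool) : xs k (R ++ R') = xs k R ++ R' := by
  induction k with
  | zero => rfl
  | succ k ih => rw [xs, xs, ih]; rfl

lemma tri_append (J : ℕ) (R R' : List Bool) : tri J (R ++ R') = tri J R ++ R' := by
  induction J with
  | zero => rfl
  | succ J ih => rw [tri, tri, ih]; rfl

lemma bs_getElem? (k : ℕ) (R : List Bool) (i : ℕ) : (bs k R)[2 * k + i]? = R[i]? := by
  induction k with
  | zero => simp [bs]
  | succ k ih =>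
    rw [bs, show 2 * (k + 1) + i = (2 * k + i) + 1 + 1 by ring, List.getElem?_cons_succ,
      List.getElem?_cons_succ, ih]

lemma tri_getElem? (J : ℕ) (R : List Bool) : ∀ q, q < 6 * J →
    (tri J R)[q]? = some (decide (3 ≤ q % 6)) := by
  induction J with
  | zero => intro q h; omega
  | succ J ih =>
    intro q h
    rw [tri]
    rcases Nat.lt_or_ge q 6 with h6 | h6
    · interval_cases q <;> rfl
    · obtain ⟨r, rfl⟩ : ∃ r, q = r + 6 := ⟨q - 6, by omega⟩
      simp only [List.getElem?_cons_succ]
      rw [ih r (by omega), Nat.add_mod_right]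

/-- the boards of the construction -/
def bd (k J t : ℕ) (P : List Bool) : Board := (bs k (tri J (top t)), xs k P)

/-- the colours next to a pair before its move -/
lemma w_colours {k J t G : ℕ} {x : Bool} (hw : w k G x) (hG : G + 2 * k + 1 < 6 * J) :
    (bs k (tri J (top t)))[4 * k + G]? = some x ∧
      (bs k (tri J (top t)))[4 * k + G + 1]? = some x := by
  rw [show 4 * k + G = 2 * k + (2 * k + G) by ring, bs_getElem?, tri_getElem? J _ _ (by omega),
    show 2 * k + (2 * k + G) + 1 = 2 * k + (2 * k + G + 1) by ring, bs_getElem?,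
    tri_getElem? J _ _ (by omega)]
  unfold w at hw
  cases x
  · simp only [Bool.toNat_false, Nat.mul_zero, Nat.add_zero] at hw
    constructor
    · congr 1
      rw [decide_eq_false_iff_not]
      omega
    · congr 1
      rw [decide_eq_false_iff_not]
      omega
  · simp only [Bool.toNat_true, Nat.mul_one] at hw
    constructor
    · congr 1
      rw [decide_eq_true_iff]
      omega
    · congr 1
      rw [decide_eq_true_iff]
      omega

/-! ### the cascade -/

/-- **The cascade.** -/
theorem casc (k J t : ℕ) : ∀ (m : ℕ) (L : List Bool) (c : Bool) (g : ℕ → ℕ) (R : List Bool),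
    W k m L.length c g → (∀ i ≤ m, 1 ≤ g i) →
    L.length + sm m (fun i => g i + vv m i) + 2 * k < 6 * J →
    Reach (bd k J t (L ++ seg m c (fun i => g i + vv m i) R)) (bd k J t (L ++ seg m c g R)) := by
  intro m
  induction m with
  | zero =>
    intro L c g R _ _ _
    apply Reach.of_eq
    simp only [vv, Nat.add_zero]
  | succ m ih =>
    intro L c g R hW hpos hlen
    have hW' := (W_vv k (m + 1) L.length c g).2 hW
    simp only [W] at hW hW'
    obtain ⟨hw, hW2⟩ := hW
    have hfun := vv_succ_fun m g
    rw [hfun] at hW'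
    simp only [sm] at hlen
    rw [hfun] at hlen
    simp only [vv] at hW' hlen
    have hn1 : nx c (g 0 + 1) = !(nx c (g 0)) := nx_succ _ _
    -- first part
    have s1 : Reach (bd k J t (L ++ seg (m + 1) c (fun i => g i + vv (m + 1) i) R))
        (bd k J t ((L ++ alt c (g 0 + 1)) ++ seg m (nx c (g 0 + 1))
          (fun i => g (i + 1) + vv m i + e0 i) R)) := by
      rw [seg, hfun]
      simp only [vv]
      rw [← List.append_assoc]
      apply ih (L ++ alt c (g 0 + 1)) (nx c (g 0 + 1)) (fun i => g (i + 1) + vv m i + e0 i) R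
      · rw [List.length_append, alt_length, ← W_vv]
        have := hW'.2
        rwa [show L.length + 2 + (g 0 + 1) = L.length + (g 0 + 1) + 2 by omega] at this
      · intro i hi
        have := hpos (i + 1) (by omega)
        omega
      · rw [List.length_append, alt_length]
        omega
    -- the own move
    have s2 : Reach (bd k J t ((L ++ alt c (g 0 + 1)) ++ seg m (nx c (g 0 + 1))
          (fun i => g (i + 1) + vv m i + e0 i) R))
        (bd k J t ((L ++ alt c (g 0)) ++ seg m (nx c (g 0)) (fun i => g (i + 1) + vv m i) R)) := by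
      rw [seg_e0 m _ (fun i => g (i + 1) + vv m i), alt_succ', hn1, Bool.not_not]
      unfold bd
      have hg0 := hpos 0 (by omega)
      obtain ⟨n, hn⟩ : ∃ n, g 0 = n + 1 := ⟨g 0 - 1, by omega⟩
      have hcol := w_colours (J := J) (t := t) hw (by omega)
      have e1 : xs k (L ++ (alt c (g 0) ++ [!(nx c (g 0))]) ++
          (!(nx c (g 0))) :: seg m (nx c (g 0)) (fun i => g (i + 1) + vv m i) R) =
          (xs k [] ++ (L ++ alt c (g 0))) ++ (!(nx c (g 0))) :: (!(nx c (g 0))) ::
            seg m (nx c (g 0)) (fun i => g (i + 1) + vv m i) R := by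
        rw [← List.nil_append (L ++ (alt c (g 0) ++ [!(nx c (g 0))]) ++ _), xs_append]
        simp
      have e2 : xs k (L ++ alt c (g 0) ++ seg m (nx c (g 0)) (fun i => g (i + 1) + vv m i) R) =
          (xs k [] ++ (L ++ alt c (g 0))) ++
            seg m (nx c (g 0)) (fun i => g (i + 1) + vv m i) R := by
        rw [← List.nil_append (L ++ alt c (g 0) ++ _), xs_append]
        simp
      rw [e1, e2]
      have hlenA : (xs k [] ++ (L ++ alt c (g 0))).length = 4 * k + (L.length + g 0) := by
        rw [List.length_append, List.length_append, alt_length, xs_length]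
        simp
      apply pair_move
      · intro i u hi hu
        rw [hn, ← List.append_assoc] at hi hu
        rw [alt_last c _ i u hi hu, ← hn]
        cases nx c (g 0) <;> simp
      · intro u hu
        have h1 := hpos 1 (by omega)
        rw [seg_head _ _ _ _ (by rw [Nat.zero_add]; omega)] at hu
        simp only [Option.some.injEq] at hu
        rw [← hu]
        cases nx c (g 0) <;> simp
      · rw [hlenA, hcol.1]
        cases nx c (g 0) <;> simp
      · rw [hlenA, hcol.2]
        cases nx c (g 0) <;> simp
    -- second part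
    have s3 : Reach
        (bd k J t ((L ++ alt c (g 0)) ++ seg m (nx c (g 0)) (fun i => g (i + 1) + vv m i) R))
        (bd k J t (L ++ seg (m + 1) c g R)) := by
      rw [seg, ← List.append_assoc]
      apply ih (L ++ alt c (g 0)) (nx c (g 0)) (fun i => g (i + 1)) R
      · rw [List.length_append, alt_length]
        exact hW2
      · intro i hi
        exact hpos (i + 1) (by omega)
      · rw [List.length_append, alt_length]
        have := sm_mono m (g := fun i => g (i + 1) + vv m i)
          (h := fun i => g (i + 1) + vv m i + e0 i + vv m i) (fun i _ => by omega)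
        omega
    exact s1.trans (s2.trans s3)

end Pool.Agent.H10C
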