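import Mathlib

/-!
# Two-column Clickomania: definitions

A board has two columns, each a list of colours (Booleans) from the floor upwards.  A column that has
become empty is kept as an empty list; with two columns this changes nothing in the game.
-/

set_option autoImplicit false

namespace Pool.Agent.H10C

/-- A board: the left and the right column, each listed from the floor upwards; the two colours are
`false` and `true`. -/
abbrev Board : Type := List Bool × List Bool

/-- A cell: the column (`false` is the left one, `true` the right one) and the height above the
floor (`0` is the floor row). -/
abbrev Cell : Type := Bool × ℕ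

/-- the column number `j` -/
def col (B : Board) (j : Bool) : List Bool := if j = true then B.2 else B.1

/-- the colour of the tile in the cell `x`, or `none` if there is no tile -/
def tile (B : Board) (x : Cell) : Option Bool := (col B x.1)[x.2]?

/-- two cells share an edge -/
def Near (x y : Cell) : Prop :=
  (x.1 = y.1 ∧ (y.2 = x.2 + 1 ∨ x.2 = y.2 + 1)) ∨ (x.1 ≠ y.1 ∧ x.2 = y.2)

/-- `x` and `y` carry adjacent tiles of the same colour -/
def Link (B : Board) (x y : Cell) : Prop :=
  Near x y ∧ ∃ c, tile B x = some c ∧ tile B y = some c

/-- the group of the cell `x` -/
def group (B : Board) (x : Cell) : Set Cell := {y | Relation.ReflTransGen (Link B) x y}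

open Classical in
/-- the tiles of a column at the heights outside of `S`, in their order -/
noncomputable def keep (l : List Bool) (S : Set ℕ) : List Bool :=
  (l.zipIdx.filter fun p => decide (p.2 ∉ S)).map Prod.fst

/-- delete the tiles in the cells of `S` and let the others fall down -/
noncomputable def del (B : Board) (S : Set Cell) : Board :=
  (keep B.1 {i | (false, i) ∈ S}, keep B.2 {i | (true, i) ∈ S})

/-- the number of tiles -/
def size (B : Board) : ℕ := B.1.length + B.2.length

/-- `Play B s E`: the list of cells `s` is a legal sequence of moves which leads from `B` to `E`.
Each move names a cell `x` whose tile has an adjacent tile of the same colour, and deletes the group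
of `x`. -/
inductive Play : Board → List Cell → Board → Prop
  | nil (B : Board) : Play B [] B
  | cons {B E : Board} {x y : Cell} {s : List Cell} (h : Link B x y)
      (hp : Play (del B (group B x)) s E) : Play B (x :: s) E

/-- no group has two or more tiles -/
def Stuck (B : Board) : Prop := ∀ x y, ¬ Link B x y

end Pool.Agent.H10C
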