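import Pool.Agent.Lib.H10C.Period

/-!
# The machine runs for many periods
-/

set_option autoImplicit false

namespace Pool.Agent.H10C

/-- the first `m` segments -/
def pre : ℕ → Bool → (ℕ → ℕ) → List Bool
  | 0, _, _ => []
  | m + 1, c, g => alt c (g 0) ++ pre m (nx c (g 0)) (fun i => g (i + 1))

lemma seg_pre (m : ℕ) : ∀ (c : Bool) (g : ℕ → ℕ) (R : List Bool),
    seg m c g R = pre m c g ++ (alt (sc m c g) (g m) ++ R) := by
  induction m with
  | zero => intro c g R; simp [seg, pre, sc, sm]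
  | succ m ih =>
    intro c g R
    rw [seg, ih, pre, sc_succ, List.append_assoc]

lemma pre_length (m : ℕ) : ∀ (c : Bool) (g : ℕ → ℕ), (pre m c g).length = sm m g := by
  induction m with
  | zero => intro c g; rfl
  | succ m ih => intro c g; rw [pre, List.length_append, ih, alt_length, sm]

lemma pre_congr (m : ℕ) : ∀ (c : Bool) {g h : ℕ → ℕ}, (∀ i < m, g i = h i) →
    pre m c g = pre m c h := by
  induction m with
  | zero => intro c g h _; rfl
  | succ m ih =>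
    intro c g h hgh
    rw [pre, pre, hgh 0 (by omega), ih _ fun i hi => hgh (i + 1) (by omega)]

lemma sc_congr (m : ℕ) (c : Bool) {g h : ℕ → ℕ} (hgh : ∀ i < m, g i = h i) :
    sc m c g = sc m c h := by
  rw [sc, sc, sm_congr m hgh]

/-- the state of the machine with `n` periods left -/
structure St (J m n N : ℕ) (L : List Bool) (c : Bool) (g : ℕ → ℕ) : Prop where
  hW : W (3 * n) m L.length c g
  h0 : 3 ≤ g 0
  hi : ∀ i, i + 1 < m → 12 * 2 ^ i ≤ g (i + 1) + 4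
  hN : N ≤ g m
  hpos : L.length + sm m g + 6 * n + 5 * 2 ^ m ≤ 6 * J + 2 * n + 1
  hcol : ((c ^^ L.length.bodd) ^^ m.bodd) = n.bodd
  hhead : (L ++ [c])[0]? = some false

lemma exists_shift (n : ℕ) : ∃ o, o ≤ 2 ∧ (5 * n + 2 + 2 * o) % 6 ≤ 1 := by
  have h : n % 6 < 6 := Nat.mod_lt _ (by norm_num)
  rcases (show n % 6 = 0 ∨ n % 6 = 1 ∨ n % 6 = 2 ∨ n % 6 = 3 ∨ n % 6 = 4 ∨ n % 6 = 5 by omega) with
    h | h | h | h | h | h
  · exact ⟨2, le_rfl, by omega⟩
  · exact ⟨0, by omega, by omega⟩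
  · exact ⟨0, by omega, by omega⟩
  · exact ⟨1, by omega, by omega⟩
  · exact ⟨1, by omega, by omega⟩
  · exact ⟨2, by omega, by omega⟩

lemma toNat_bodd (n : ℕ) : n.bodd.toNat = n % 2 := by
  rw [Nat.mod_two_of_bodd]

lemma vv_le {J m n N : ℕ} {L : List Bool} {c : Bool} {g : ℕ → ℕ} (h : St J m n N L c g) {i : ℕ}
    (hi : i < m) : vv m i + 1 ≤ g i := by
  obtain ⟨m, rfl⟩ : ∃ k, m = k + 1 := ⟨m - 1, by omega⟩
  cases i with
  | zero =>
    have := h.h0
    rw [vv_zero]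
    omega
  | succ i =>
    have h1 := h.hi i hi
    have h2 : 0 < 2 ^ i := by positivity
    rw [vv_mid _ _ hi]
    omega

lemma colour_aux1 {c x1 x2 x3 x4 x5 x6 : Bool} (h1 : ((c ^^ x1) ^^ x6) = !x5)
    (h2 : ((x1 ^^ x2) ^^ (x3 ^^ x4)) = true) : (((c ^^ x2) ^^ x6) ^^ (x3 ^^ x4)) = x5 := by
  revert h1 h2
  cases c <;> cases x1 <;> cases x2 <;> cases x3 <;> cases x4 <;> cases x5 <;> cases x6 <;> decide

lemma colour_aux2 {s x3 x4 x5 : Bool} (h : (s ^^ (x3 ^^ x4)) = x5) :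
    (!(s ^^ x3)) = ((!x5) ^^ x4) := by
  revert h
  cases s <;> cases x3 <;> cases x4 <;> cases x5 <;> decide

lemma res_aux {X n o a J : ℕ} (h1 : X + (6 * n + 4) + 8 * a + o = 6 * J + 2 * n + 1)
    (h2 : 8 * a % 6 = 2) (h3 : (5 * n + 2 + 2 * o) % 6 ≤ 1) :
    (X + 2 * (3 * n + 2) + 3 * ((n.succ + o) % 2)) % 6 ≤ 1 := by
  obtain ⟨b, hb⟩ : ∃ b, 8 * a = 6 * b + 2 := ⟨8 * a / 6, by omega⟩
  obtain ⟨r, hr⟩ : ∃ r, r = (n.succ + o) % 2 := ⟨_, rfl⟩
  obtain ⟨p, hp⟩ : ∃ p, n + 1 + o = 2 * p + r := ⟨(n.succ + o) / 2, by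
    rw [hr, Nat.succ_eq_add_one]; omega⟩
  rw [← hr]
  have h4 : X + 2 * (3 * n + 2) + 3 * r + 6 * (b + p) = (5 * n + 2 + 2 * o) + 6 * J := by omega
  have h5 : (X + 2 * (3 * n + 2) + 3 * r) % 6 = (5 * n + 2 + 2 * o) % 6 := by
    rw [← Nat.add_mul_mod_self_left (X + 2 * (3 * n + 2) + 3 * r) 6 (b + p), h4,
      Nat.add_mul_mod_self_left]
  rw [h5]
  exact h3

lemma colour_aux3 {c x1 x2 x5 x6 : Bool} (h : ((c ^^ x1) ^^ x6) = !x5) :
    (((!(c ^^ x2)) ^^ (x1 ^^ x2)) ^^ x6) = x5 := by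
  revert h
  cases c <;> cases x1 <;> cases x2 <;> cases x5 <;> cases x6 <;> decide

/-- **One period.** -/
theorem period {J μ n N : ℕ} {L : List Bool} {c : Bool} {g : ℕ → ℕ} (hJ : 0 < J)
    (hE : 2 ^ (μ + 3) % 6 = 2) (hn : n + 1 ≤ 2 ^ (μ + 2))
    (hst : St J (μ + 2) (n + 1) (N + 6 * J + 2 * n + 2 ^ (μ + 2) + 6) L c g) :
    ∃ L' c' g', St J (μ + 2) n N L' c' g' ∧
      Reach (bd (3 * (n + 1)) J (n + 1) (L ++ seg (μ + 2) c g []))
        (bd (3 * n) J n (L' ++ seg (μ + 2) c' g' [])) ∧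
      L'.length + sm (μ + 3) g' + 3 * 2 ^ (μ + 3) ≤ L.length + sm (μ + 3) g + 6 := by
  obtain ⟨a, ha⟩ : ∃ a, a = 2 ^ μ := ⟨_, rfl⟩
  have ha0 : 0 < a := by rw [ha]; positivity
  have h4 : 2 ^ (μ + 2) = 4 * a := by rw [ha, pow_succ, pow_succ]; ring
  have h8 : 2 ^ (μ + 3) = 8 * a := by rw [ha, pow_succ, pow_succ, pow_succ]; ring
  have hv1 : vv (μ + 2) (μ + 1) = 3 * a := by rw [vv_mid _ _ (by omega), ha]
  have hv2 : vv (μ + 2) (μ + 2) = 2 * a := by rw [vv_last, pow_succ, ha]; ring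
  have hsv : sm (μ + 3) (vv (μ + 2)) + 2 = 8 * a := by rw [sm_vv, h8]
  have hsv' : sm (μ + 2) (vv (μ + 2)) + 2 = 6 * a := by
    rw [sm_vv', pow_succ, ha]; ring
  obtain ⟨o, ho, hres⟩ := exists_shift n
  have hpos := hst.hpos
  have hN := hst.hN
  rw [h4] at hpos hN hn
  rw [h8] at hE
  -- the new segments
  obtain ⟨h, hh⟩ : ∃ h, L.length + sm (μ + 2) g + (h + o) + 2 * (3 * (n + 1)) = 6 * J + 2 * n + 1 :=
    ⟨6 * J + 2 * n + 1 - (L.length + sm (μ + 2) g + o + 2 * (3 * (n + 1))), by omega⟩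
  obtain ⟨N₁, hN₁⟩ : ∃ N₁, g (μ + 2) = h + o + 1 + (N₁ + o) :=
    ⟨g (μ + 2) - (h + o + 1 + o), by omega⟩
  set G0 : ℕ → ℕ := fun i => if i = μ + 2 then h else if i = μ + 3 then N₁ else g i with hG0
  have G0lt : ∀ i < μ + 2, G0 i = g i := by
    intro i hi
    simp only [hG0]
    rw [if_neg (by omega), if_neg (by omega)]
  have G0m : G0 (μ + 2) = h := by simp [hG0]
  have G0m1 : G0 (μ + 2 + 1) = N₁ := by simp [hG0]
  set G1 : ℕ → ℕ := fun i => G0 i - vv (μ + 2) i with hG1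
  have hle : ∀ i, i < μ + 2 → vv (μ + 2) i + 1 ≤ G0 i := by
    intro i hi
    rw [G0lt i hi]
    exact vv_le hst hi
  have G01 : ∀ i, G0 i = G1 i + vv (μ + 2) i := by
    intro i
    simp only [hG1]
    rcases Nat.lt_or_ge i (μ + 2) with h1 | h1
    · have := hle i h1
      omega
    · rcases Nat.eq_or_lt_of_le h1 with h2 | h2
      · rw [← h2, hv2, G0m]
        omega
      · rw [vv_gt _ _ h2]
        omega
  have G1m : G1 (μ + 2) + 2 * a = h := by rw [← G0m, G01, hv2]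
  have G1m1 : G1 (μ + 2 + 1) = N₁ := by
    have := G01 (μ + 2 + 1)
    rw [vv_gt _ _ (by omega), G0m1] at this
    omega
  have hsm0 : sm (μ + 2) G0 = sm (μ + 2) g := sm_congr _ G0lt
  have hsm1 : sm (μ + 3) G0 = sm (μ + 3) G1 + sm (μ + 3) (vv (μ + 2)) := by
    rw [← sm_add]
    exact sm_congr _ fun i _ => G01 i
  have hsm0' : sm (μ + 3) G0 = sm (μ + 2) g + h := by rw [sm_succ', hsm0, G0m]
  -- the colours
  have hcol := hst.hcol
  have hbodd : (L.length + sm (μ + 2) g + (h + o)).bodd = true := by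
    have : L.length + sm (μ + 2) g + (h + o) = 2 * (3 * J + n - (3 * (n + 1))) + 1 := by omega
    rw [this]
    simp
  rw [Nat.bodd_succ n] at hcol
  rw [Nat.bodd_add, Nat.bodd_add, Nat.bodd_add h o] at hbodd
  have hs : (sc (μ + 2) c g ^^ (h + o).bodd) = n.bodd := by
    rw [sc, Nat.bodd_add h o]
    exact colour_aux1 hcol hbodd
  have hnx : nx (sc (μ + 2) c g) h = ((!n.bodd) ^^ o.bodd) := by
    rw [Nat.bodd_add h o] at hs
    rw [nx]
    exact colour_aux2 hs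
  have hsc0 : sc (μ + 2) c G0 = sc (μ + 2) c g := sc_congr _ _ G0lt
  have hsc1 : sc (μ + 3) c G0 = nx (sc (μ + 2) c g) h := by
    rw [sc_next, hsc0, G0m]
  have heven : (sm (μ + 3) (vv (μ + 2))).bodd = false := by
    have : sm (μ + 3) (vv (μ + 2)) = 2 * (4 * a - 1) := by omega
    rw [this]
    simp
  have hsc2 : sc (μ + 3) c G1 = sc (μ + 3) c G0 := by
    rw [sc, sc, hsm1, Nat.bodd_add (sm (μ + 3) G1), heven, Bool.xor_false]
  -- the creation
  have R1 : Reach (bd (3 * (n + 1)) J (n + 1) (L ++ seg (μ + 2) c g []))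
      (bd (3 * (n + 1)) J n (L ++ seg (μ + 2) c G0 (alt (sc (μ + 3) c G0) N₁ ++ []))) := by
    rw [seg_pre, seg_pre, List.append_nil, List.append_nil, hsc0, G0m, pre_congr _ _ G0lt, hsc1,
      hN₁, ← List.append_assoc, ← List.append_assoc L]
    apply create hJ (by omega) (by omega) ho
    · rw [List.length_append, pre_length]
      omega
    · exact hs
  -- the round with the resting pair
  have h0W : W (3 * n + 2 + 1) (μ + 2) L.length c G0 := (W_congr _ _ _ _ G0lt).2 hst.hW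
  have hG1pos : ∀ i ≤ μ + 2, 1 ≤ G1 i := by
    intro i hi
    rcases Nat.lt_or_ge i (μ + 2) with h1 | h1
    · have h2 := hle i h1
      have h3 := G01 i
      omega
    · have : i = μ + 2 := by omega
      rw [this]
      omega
  obtain ⟨R2, hW1⟩ := round (k := 3 * n + 2) (t := n) (alt (sc (μ + 3) c G0) N₁ ++ []) hJ G01 h0W
    hG1pos (by rw [hsm0]; omega) hst.hhead
  have e2 : seg (μ + 2) c G1 (alt (sc (μ + 3) c G0) N₁ ++ []) = seg (μ + 3) c G1 [] := by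
    have h1 : seg (μ + 3) c G1 [] = seg (μ + 2) c G1 (alt (sc (μ + 3) c G1) (G1 (μ + 3)) ++ []) :=
      seg_snoc (μ + 2) c G1 []
    rw [h1, hsc2, show G1 (μ + 3) = N₁ from G1m1]
  have hw : w (3 * n + 2) (L.length + sm (μ + 3) G1) (sc (μ + 3) c G1) := by
    rw [hsc2, hsc1, hnx, w, ← Nat.bodd_succ, ← Nat.bodd_add, toNat_bodd]
    exact res_aux (J := J) (by omega) hE hres
  have hW2 : W (3 * n + 2) (μ + 3) L.length c G1 := (W_snoc _ _ _ _ _).2 ⟨hW1, hw⟩
  obtain ⟨-, hW3⟩ := hW2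
  -- the new lists
  obtain ⟨L1, hL1⟩ : ∃ L1, L1 = L ++ alt c (G1 0) := ⟨_, rfl⟩
  obtain ⟨c1, hc1⟩ : ∃ c1, c1 = nx c (G1 0) := ⟨_, rfl⟩
  have hL1len : L1.length = L.length + G1 0 := by rw [hL1, List.length_append, alt_length]
  obtain ⟨G2, hG2⟩ : ∃ G2 : ℕ → ℕ, G2 = fun i => G1 (i + 1) := ⟨_, rfl⟩
  rw [← hG2, ← hc1, ← hL1len] at hW3
  have e3 : L ++ seg (μ + 3) c G1 [] = L1 ++ seg (μ + 2) c1 G2 [] := by
    rw [seg, hL1, hG2, hc1, List.append_assoc]
  have G2v : ∀ i, G2 i = G1 (i + 1) := fun i => by rw [hG2]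
  have hhead1 : (L1 ++ [c1])[0]? = some false := by
    have h1 := hG1pos 0 (by omega)
    obtain ⟨r, hr⟩ : ∃ r, G1 0 = r + 1 := ⟨G1 0 - 1, by omega⟩
    rw [hL1, hr, alt]
    have h2 := hst.hhead
    cases L with
    | nil => exact h2
    | cons x L => exact h2
  -- bounds
  have b0 : 5 ≤ G2 0 := by
    have h1 := hst.hi 0 (by omega)
    have h2 := G01 1
    have h3 := G0lt 1 (by omega)
    rw [vv_mid _ 0 (by omega)] at h2
    rw [G2v]
    simp only [Nat.zero_add] at h1 ⊢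
    omega
  have bmid : ∀ j, j < μ → 18 * 2 ^ j ≤ G2 (j + 1) + 4 := by
    intro j hj
    have h1 := hst.hi (j + 1) (by omega)
    have h2 := G01 (j + 1 + 1)
    have h3 := G0lt (j + 1 + 1) (by omega)
    rw [vv_mid _ (j + 1) (by omega), pow_succ] at h2
    rw [pow_succ] at h1
    rw [G2v]
    omega
  have blast : G2 (μ + 1) + 2 * a = h := by rw [G2v]; exact G1m
  have btop : G2 (μ + 2) = N₁ := by rw [G2v]; exact G1m1
  have hv0 : vv (μ + 2) 0 = 1 := rfl
  have hvmid : ∀ j, j < μ → vv (μ + 2) (j + 1) = 3 * 2 ^ j := fun j hj => vv_mid _ _ (by omega)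
  have hdouble : ∀ i ≤ μ + 2, 2 * vv (μ + 2) i + 1 ≤ G2 i := by
    intro i hi
    cases i with
    | zero => rw [hv0]; omega
    | succ j =>
      rcases Nat.lt_or_ge j μ with h1 | h1
      · have h2 := bmid j h1
        have h3 : 0 < 2 ^ j := by positivity
        rw [hvmid j h1]
        omega
      · rcases (show j = μ ∨ j = μ + 1 by omega) with rfl | rfl
        · rw [hv1]
          omega
        · rw [hv2, btop]
          omega
  have hvle : ∀ i, 2 * vv (μ + 2) i ≤ G2 i := by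
    intro i
    rcases Nat.lt_or_ge (μ + 2) i with h1 | h1
    · rw [vv_gt _ _ h1]; omega
    · have := hdouble i h1; omega
  obtain ⟨G3, hG3⟩ : ∃ G3 : ℕ → ℕ, ∀ i, G2 i = G3 i + vv (μ + 2) i :=
    ⟨fun i => G2 i - vv (μ + 2) i, fun i => by have := hvle i; simp only; omega⟩
  obtain ⟨G4, hG4⟩ : ∃ G4 : ℕ → ℕ, ∀ i, G3 i = G4 i + vv (μ + 2) i :=
    ⟨fun i => G3 i - vv (μ + 2) i, fun i => by have := hvle i; have := hG3 i; simp only; omega⟩
  have hG4' : ∀ i, G2 i = G4 i + 2 * vv (μ + 2) i := fun i => by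
    have h1 := hG3 i
    have h2 := hG4 i
    omega
  have hs2 : L1.length + sm (μ + 2) G2 = L.length + sm (μ + 3) G1 := by
    have h1 : sm (μ + 3) G1 = G1 0 + sm (μ + 2) (fun i => G1 (i + 1)) := sm_succ _ _
    rw [hL1len, hG2, h1]
    omega
  have hs3 : L1.length + sm (μ + 3) G2 = L.length + sm (μ + 3) G1 + N₁ := by
    rw [sm_succ', btop, ← hs2]
    omega
  have hs4 : ∀ m', sm m' G2 = sm m' G4 + 2 * sm m' (vv (μ + 2)) := by
    intro m'
    rw [← sm_two, ← sm_add]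
    exact sm_congr _ fun i _ => hG4' i
  obtain ⟨R3, hW4⟩ := round (k := 3 * n + 1) (t := n) [] hJ hG3 hW3
    (fun i hi => by have := hdouble i hi; have := hG3 i; omega) (by omega) hhead1
  have hs5 : sm (μ + 2) G3 ≤ sm (μ + 2) G2 := sm_mono _ fun i _ => by have := hG3 i; omega
  obtain ⟨R4, hW5⟩ := round (k := 3 * n) (t := n) [] hJ hG4 hW4
    (fun i hi => by have := hdouble i hi; have := hG4' i; omega) (by omega) hhead1
  refine ⟨L1, c1, G4, ⟨hW5, ?_, ?_, ?_, ?_, ?_, hhead1⟩, ?_, ?_⟩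
  · have := hG4' 0
    omega
  · intro i hi
    have h1 := hG4' (i + 1)
    rcases Nat.lt_or_ge i μ with h2 | h2
    · have h3 := bmid i h2
      rw [hvmid i h2] at h1
      omega
    · have h3 : i = μ := by omega
      subst h3
      rw [hv1] at h1
      rw [← ha]
      omega
  · have := hG4' (μ + 2)
    rw [hv2] at this
    omega
  · have := hs4 (μ + 2)
    rw [h4]
    omega
  · rw [hL1len, hc1, nx, Nat.bodd_add]
    exact colour_aux3 hcol
  · refine R1.trans ?_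
    rw [e2, e3] at R2
    exact R2.trans (R3.trans R4)
  · have := hs4 (μ + 3)
    have h1 : sm (μ + 3) g = sm (μ + 2) g + g (μ + 2) := sm_succ' _ _
    rw [h8]
    omega

end Pool.Agent.H10C
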