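import Pool.Agent.Lib.H10C.Algo

/-!
# The two approximation theorems
-/

set_option autoImplicit false

namespace Pool.Agent.H10C

open Pool.Agent.PolyTime

/-- the string of a board: the two columns as a binary tree in preorder -/
def encodeBoard (B : Board) : List Bool := code (enc B)

/-- the string of a sequence of moves: the list of cells as a binary tree in preorder, with the
heights in binary -/
def encodeMoves (s : List Cell) : List Bool := code (enc s)

/-- every maximal play is within the factor `max 11 (r + 1)` of the optimum -/
theorem ratio_of_stuck {B E F : Board} {s s' : List Cell} (hplay : Play B s E) (hE : Stuck E)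
    (hp : Play B s' F) (r : ℕ) (h1 : B.1.length ≤ r * B.2.length)
    (h2 : B.2.length ≤ r * B.1.length) :
    size B - size F ≤ max 11 (r + 1) * (size B - size E) := by
  rcases zero_or_two hplay hE with h0 | h0
  · rw [stuck_play h0 hp]
    simp
  · by_cases hne : ∀ j, col E j ≠ []
    · have h3 := near_optimal hplay hE hne hp
      have h4 : size B - size F ≤ 11 * (size B - size E) := by omega
      exact h4.trans (Nat.mul_le_mul (le_max_left _ _) le_rfl)
    · push Not at hne
      obtain ⟨j, hj⟩ := hne
      have h3 := size_eq E j
      have h4 := size_eq B j
      have h5 := col_play_le hplay (!j)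
      rw [hj, List.length_nil] at h3
      have h6 : (col B (!j)).length ≤ r * (col B j).length := by
        cases j
        · exact h2
        · exact h1
      have h7 : size B ≤ (r + 1) * (col B j).length := by
        rw [h4, Nat.add_mul, Nat.one_mul]
        omega
      have h8 : (r + 1) * (col B j).length ≤ (r + 1) * (size B - size E) :=
        Nat.mul_le_mul le_rfl (by omega)
      have h9 : (r + 1) * (size B - size E) ≤ max 11 (r + 1) * (size B - size E) :=
        Nat.mul_le_mul (le_max_right _ _) le_rfl
      omega

/-- every maximal play deletes at least the square root of a sixth of the optimum -/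
theorem square_of_stuck {B E F : Board} {s s' : List Cell} (hplay : Play B s E) (hE : Stuck E)
    (hp : Play B s' F) : size B - size F ≤ 6 * (size B - size E) ^ 2 := by
  rcases zero_or_two hplay hE with h0 | h0
  · rw [stuck_play h0 hp]
    simp
  · obtain ⟨V, hV⟩ : ∃ V, size B - size E = V := ⟨_, rfl⟩
    have hV2 : 2 ≤ V := by omega
    by_cases hne : ∀ j, col E j ≠ []
    · have h3 := near_optimal hplay hE hne hp
      have h4 : size B - size F ≤ 6 * V + 9 := by omega
      rw [hV]
      nlinarith
    · push Not at hne
      obtain ⟨j, hj⟩ := hne
      have h3 := quadratic hplay hE hj hp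
      rw [hV] at h3 ⊢
      nlinarith

theorem algo_tm : Nonempty (Turing.TM2ComputableInPolyTime encodeBoard encodeMoves algo) :=
  PT.tm pt_algo

end Pool.Agent.H10C
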