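import Pool.Agent.Lib.H10C.Sq

/-!
# Three kinds of moves on explicit boards
-/

set_option autoImplicit false

namespace Pool.Agent.H10C

open Relation

/-- some legal sequence of moves leads from `B` to `E` -/
def Reach (B E : Board) : Prop := ∃ s, Play B s E

lemma Reach.refl (B : Board) : Reach B B := ⟨[], Play.nil B⟩

lemma Reach.of_eq {B E : Board} (h : B = E) : Reach B E := h ▸ Reach.refl B

lemma Play.append {B E F : Board} {s s' : List Cell} (h : Play B s E) (h' : Play E s' F) :
    Play B (s ++ s') F := by
  induction h with
  | nil B => exact h'
  | cons h _ ih => exact Play.cons h (ih h')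

lemma Reach.trans {B E F : Board} (h : Reach B E) (h' : Reach E F) : Reach B F := by
  obtain ⟨s, hs⟩ := h
  obtain ⟨s', hs'⟩ := h'
  exact ⟨s ++ s', hs.append hs'⟩

lemma Reach.single {B : Board} {x y : Cell} (h : Link B x y) : Reach B (del B (group B x)) :=
  ⟨[x], Play.cons h (Play.nil _)⟩

lemma group_eq_of {B : Board} {x : Cell} {F : Set Cell} (hx : x ∈ F)
    (hcl : ∀ z ∈ F, ∀ w, Link B z w → w ∈ F) (hr : ∀ z ∈ F, z ∈ group B x) : group B x = F := by
  apply Set.Subset.antisymm
  · intro z hz
    induction hz with
    | refl => exact hx
    | tail _ h ih => exact hcl _ ih _ h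
  · exact hr

/-- the four possible neighbours -/
lemma near_cases {j : Bool} {i : ℕ} {w : Cell} (h : Near (j, i) w) :
    w = (j, i + 1) ∨ (w = (j, i - 1) ∧ 0 < i) ∨ w = (!j, i) := by
  obtain ⟨k, l⟩ := w
  rcases h with ⟨h1, h2 | h2⟩ | ⟨h1, h2⟩
  · simp only at h1 h2
    subst h1 h2
    exact Or.inl rfl
  · simp only at h1 h2
    subst h1 h2
    exact Or.inr (Or.inl ⟨rfl, by omega⟩)
  · simp only at h1 h2
    subst h2
    refine Or.inr (Or.inr ?_)
    cases j <;> cases k <;> simp_all

/-- a pair of tiles of the right column which touches no other tile of its colour -/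
lemma pair_move {S A R : List Bool} {x : Bool} (hA : ∀ i u, A.length = i + 1 → A[i]? = some u → u ≠ x)
    (hR : ∀ u, R[0]? = some u → u ≠ x) (h1 : S[A.length]? ≠ some x)
    (h2 : S[A.length + 1]? ≠ some x) : Reach (S, A ++ x :: x :: R) (S, A ++ R) := by
  classical
  set B : Board := (S, A ++ x :: x :: R) with hB
  have hS : ∀ i, tile B (false, i) = S[i]? := fun i => rfl
  have hT : ∀ i, tile B (true, i) = (A ++ x :: x :: R)[i]? := fun i => rfl
  have hT0 : tile B (true, A.length) = some x := by rw [hT]; simp
  have hT1 : tile B (true, A.length + 1) = some x := by
    rw [hT, List.getElem?_append_right (by omega)]; simp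
  have hl : Link B (true, A.length) (true, A.length + 1) :=
    ⟨Or.inl ⟨rfl, Or.inl rfl⟩, x, hT0, hT1⟩
  have hG : group B (true, A.length) = {(true, A.length), (true, A.length + 1)} := by
    apply group_eq_of
    · simp
    · rintro z hz w hw
      obtain ⟨hn, c, hc1, hc2⟩ := hw
      rcases hz with rfl | rfl
      · rw [hT0, Option.some.injEq] at hc1
        subst hc1
        rcases near_cases hn with rfl | ⟨rfl, h0⟩ | rfl
        · simp
        · exfalso
          obtain ⟨i, hi⟩ : ∃ i, A.length = i + 1 := ⟨A.length - 1, by omega⟩
          rw [hT, hi, Nat.add_sub_cancel, List.getElem?_append_left (by omega)] at hc2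
          exact hA i x hi hc2 rfl
        · exact absurd hc2 h1
      · rw [hT1, Option.some.injEq] at hc1
        subst hc1
        rcases near_cases hn with rfl | ⟨rfl, h0⟩ | rfl
        · exfalso
          rw [hT, List.getElem?_append_right (by omega)] at hc2
          rw [show A.length + 1 + 1 - A.length = 2 by omega] at hc2
          simp only [List.getElem?_cons_succ] at hc2
          exact hR x hc2 rfl
        · simp
        · exact absurd hc2 h2
    · rintro z (rfl | rfl)
      · exact mem_group_self _ _
      · exact group_closed (mem_group_self _ _) hl
  have hr := Reach.single hl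
  rw [hG] at hr
  have hd : del B {(true, A.length), (true, A.length + 1)} = (S, A ++ R) := by
    unfold del
    refine Prod.ext ?_ ?_
    · exact keep_eq_self fun i _ h => by simp at h
    · change keep (A ++ ([x, x] ++ R)) _ = A ++ R
      rw [keep_append, keep_append, keep_eq_self (l := A), keep_eq_nil (l := [x, x]),
        keep_eq_self (l := R), List.nil_append]
      · intro i _ h
        simp at h
        omega
      · intro i hi
        simp at hi
        simp
        omega
      · intro i hi h
        simp at h
        omega
  rwa [hd] at hr

/-- a pair of tiles at the floor of the right column together with the floor tile of the left one -/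
lemma floor_move {S R : List Bool} {z : Bool} (hS : ∀ u, S[0]? = some u → u ≠ z)
    (hR : ∀ u, R[0]? = some u → u ≠ z) : Reach (z :: S, z :: z :: R) (S, R) := by
  classical
  set B : Board := (z :: S, z :: z :: R) with hB
  have hS' : ∀ i, tile B (false, i) = (z :: S)[i]? := fun i => rfl
  have hT : ∀ i, tile B (true, i) = (z :: z :: R)[i]? := fun i => rfl
  have hl1 : Link B (true, 0) (true, 1) := ⟨Or.inl ⟨rfl, Or.inl rfl⟩, z, by simp [hT], by simp [hT]⟩
  have hl2 : Link B (true, 0) (false, 0) :=
    ⟨Or.inr ⟨by simp, rfl⟩, z, by simp [hT], by simp [hS']⟩
  have hG : group B (true, 0) = {(true, 0), (true, 1), (false, 0)} := by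
    apply group_eq_of
    · simp
    · rintro y hy w ⟨hn, c, hc1, hc2⟩
      rcases hy with rfl | rfl | rfl
      · rcases near_cases hn with rfl | ⟨rfl, h0⟩ | rfl
        · simp
        · omega
        · simp
      · rw [hT] at hc1
        simp at hc1
        subst hc1
        rcases near_cases hn with rfl | ⟨rfl, h0⟩ | rfl
        · exfalso
          rw [hT] at hc2
          exact hR z (by simpa using hc2) rfl
        · simp
        · exfalso
          simp only [Bool.not_true] at hc2
          rw [hS'] at hc2
          exact hS z (by simpa using hc2) rfl
      · rw [hS'] at hc1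
        simp at hc1
        subst hc1
        rcases near_cases hn with rfl | ⟨rfl, h0⟩ | rfl
        · exfalso
          rw [hS'] at hc2
          exact hS z (by simpa using hc2) rfl
        · omega
        · simp
    · rintro y (rfl | rfl | rfl)
      · exact mem_group_self _ _
      · exact group_closed (mem_group_self _ _) hl1
      · exact group_closed (mem_group_self _ _) hl2
  have hr := Reach.single hl1
  rw [hG] at hr
  have hd : del B {(true, 0), (true, 1), (false, 0)} = (S, R) := by
    unfold del
    refine Prod.ext ?_ ?_
    · change keep ([z] ++ S) _ = S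
      rw [keep_append, keep_eq_nil (l := [z]), keep_eq_self (l := S), List.nil_append]
      · intro i _ h
        simp at h
      · intro i hi
        simp at hi
        simp [hi]
    · change keep ([z, z] ++ R) _ = R
      rw [keep_append, keep_eq_nil (l := [z, z]), keep_eq_self (l := R), List.nil_append]
      · intro i _ h
        simp at h
        omega
      · intro i hi
        simp at hi
        simp
        omega
  rwa [hd] at hr

/-- the two top tiles of the left column together with one tile of the right one -/
lemma top_move {S A R : List Bool} {z : Bool} (hlen : A.length = S.length + 1)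
    (hS : ∀ i u, S.length = i + 1 → S[i]? = some u → u ≠ z)
    (hA : ∀ u, A[S.length]? = some u → u ≠ z)
    (hR : ∀ u, R[0]? = some u → u ≠ z) : Reach (S ++ [z, z], A ++ z :: R) (S, A ++ R) := by
  classical
  set B : Board := (S ++ [z, z], A ++ z :: R) with hB
  have hS' : ∀ i, tile B (false, i) = (S ++ [z, z])[i]? := fun i => rfl
  have hT : ∀ i, tile B (true, i) = (A ++ z :: R)[i]? := fun i => rfl
  have hS0 : tile B (false, S.length) = some z := by rw [hS']; simp
  have hS1 : tile B (false, S.length + 1) = some z := by
    rw [hS', List.getElem?_append_right (by omega)]; simp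
  have hT1 : tile B (true, S.length + 1) = some z := by
    rw [hT, ← hlen]; simp
  have hl1 : Link B (false, S.length) (false, S.length + 1) :=
    ⟨Or.inl ⟨rfl, Or.inl rfl⟩, z, hS0, hS1⟩
  have hl2 : Link B (false, S.length + 1) (true, S.length + 1) :=
    ⟨Or.inr ⟨by simp, rfl⟩, z, hS1, hT1⟩
  have hG : group B (false, S.length) =
      {(false, S.length), (false, S.length + 1), (true, S.length + 1)} := by
    apply group_eq_of
    · simp
    · rintro y hy w ⟨hn, c, hc1, hc2⟩
      rcases hy with rfl | rfl | rfl
      · rw [hS0, Option.some.injEq] at hc1
        subst hc1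
        rcases near_cases hn with rfl | ⟨rfl, h0⟩ | rfl
        · simp
        · exfalso
          obtain ⟨i, hi⟩ : ∃ i, S.length = i + 1 := ⟨S.length - 1, by omega⟩
          rw [hS', hi, Nat.add_sub_cancel, List.getElem?_append_left (by omega)] at hc2
          exact hS i z hi hc2 rfl
        · exfalso
          simp only [Bool.not_false] at hc2
          rw [hT, List.getElem?_append_left (by omega)] at hc2
          exact hA z hc2 rfl
      · rw [hS1, Option.some.injEq] at hc1
        subst hc1
        rcases near_cases hn with rfl | ⟨rfl, h0⟩ | rfl
        · exfalso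
          rw [hS', List.getElem?_append_right (by omega)] at hc2
          rw [show S.length + 1 + 1 - S.length = 2 by omega] at hc2
          simp at hc2
        · simp
        · simp
      · rw [hT1, Option.some.injEq] at hc1
        subst hc1
        rcases near_cases hn with rfl | ⟨rfl, h0⟩ | rfl
        · exfalso
          rw [hT, List.getElem?_append_right (by omega), hlen] at hc2
          rw [show S.length + 1 + 1 - (S.length + 1) = 1 by omega] at hc2
          exact hR z (by simpa using hc2) rfl
        · exfalso
          rw [Nat.add_sub_cancel, hT, List.getElem?_append_left (by omega)] at hc2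
          exact hA z hc2 rfl
        · simp
    · rintro y (rfl | rfl | rfl)
      · exact mem_group_self _ _
      · exact group_closed (mem_group_self _ _) hl1
      · exact group_closed (group_closed (mem_group_self _ _) hl1) hl2
  have hr := Reach.single hl1
  rw [hG] at hr
  have hd : del B {(false, S.length), (false, S.length + 1), (true, S.length + 1)} = (S, A ++ R) := by
    unfold del
    refine Prod.ext ?_ ?_
    · change keep (S ++ [z, z]) _ = S
      rw [keep_append, keep_eq_self (l := S), keep_eq_nil (l := [z, z]), List.append_nil]
      · intro i hi
        simp at hi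
        simp
        omega
      · intro i hi h
        simp at h
        omega
    · change keep (A ++ ([z] ++ R)) _ = A ++ R
      rw [keep_append, keep_append, keep_eq_self (l := A), keep_eq_nil (l := [z]),
        keep_eq_self (l := R), List.nil_append]
      · intro i _ h
        simp at h
        omega
      · intro i hi
        simp at hi
        simp [hi, hlen]
      · intro i hi h
        simp at h
        omega
  rwa [hd] at hr

end Pool.Agent.H10C
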