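import Pool.Agent.Lib.H10C.Basic

/-!
# A potential: few tiles above a checkerboard can only delete few tiles
-/

set_option autoImplicit false

namespace Pool.Agent.H10C

open Relation

/-- the colour of the cell `x` in the checkerboard number `c` -/
def cb (c : Bool) (x : Cell) : Bool := (c ^^ x.1) ^^ x.2.bodd

/-- the tiles below the height `m` form a part of the checkerboard number `c` -/
def Al (B : Board) (m : ℕ) (c : Bool) : Prop := ∀ x t, x.2 < m → tile B x = some t → t = cb c x

/-- the number of tiles at heights `≥ m` -/
def N (B : Board) (m : ℕ) : ℕ := (B.1.length - m) + (B.2.length - m)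

/-- in the row `m` exactly one tile deviates from the checkerboard, and the other one exists -/
def T1 (B : Board) (m : ℕ) (c : Bool) : Prop :=
  ∃ j, tile B (j, m) = some (!cb c (j, m)) ∧ tile B (!j, m) = some (cb c (!j, m))

/-- the potential is at most `n` -/
def Pot (B : Board) (n : ℕ) : Prop :=
  ∃ m c, Al B m c ∧ (2 * N B m + 1 ≤ n ∨ (T1 B m c ∧ 2 * N B m ≤ n))

lemma cb_up (c j : Bool) (i : ℕ) : cb c (j, i + 1) = !cb c (j, i) := by
  simp only [cb, Nat.bodd_succ]
  cases c <;> cases j <;> cases i.bodd <;> rfl

lemma cb_side (c j : Bool) (i : ℕ) : cb c (!j, i) = !cb c (j, i) := by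
  simp only [cb]
  cases c <;> cases j <;> cases i.bodd <;> rfl

lemma cb_near {c : Bool} {x y : Cell} (h : Near x y) : cb c y = !cb c x := by
  obtain ⟨j, i⟩ := x
  obtain ⟨k, l⟩ := y
  rcases h with ⟨h1, h2 | h2⟩ | ⟨h1, h2⟩
  · simp only at h1 h2
    subst h1 h2
    exact cb_up c _ _
  · simp only at h1 h2
    subst h1 h2
    rw [cb_up, Bool.not_not]
  · simp only at h1 h2
    subst h2
    have : k = !j := by cases j <;> cases k <;> simp_all
    rw [this]
    exact cb_side c j i

lemma Al.link {B : Board} {m : ℕ} {c : Bool} (hA : Al B m c) {x y : Cell} (h : Link B x y)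
    (hx : x.2 < m) : m ≤ y.2 := by
  by_contra hy
  obtain ⟨hn, d, h1, h2⟩ := h
  have h3 := hA x d hx h1
  have h4 := hA y d (by omega) h2
  rw [cb_near hn, ← h3] at h4
  cases d <;> simp at h4

lemma N_eq (B : Board) (m : ℕ) (j : Bool) :
    N B m = ((col B j).length - m) + ((col B (!j)).length - m) := by
  cases j
  · rfl
  · exact Nat.add_comm _ _

lemma size_del_le (B : Board) (S : Set Cell) : size (del B S) ≤ size B := by
  have h1 := keep_length_le B.1 {i | (false, i) ∈ S}
  have h2 := keep_length_le B.2 {i | (true, i) ∈ S}
  simp only [size, del]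
  omega

/-- if nothing is deleted below the height `e`, all deletions count in `N B e` -/
lemma N_del {B : Board} {S : Set Cell} {e : ℕ} (h : ∀ z ∈ S, e ≤ z.2) :
    N (del B S) e + size B = N B e + size (del B S) := by
  classical
  have key : ∀ (l : List Bool) (T : Set ℕ), (∀ i ∈ T, e ≤ i) →
      ((keep l T).length - e) + l.length = (l.length - e) + (keep l T).length := by
    intro l T hT
    have h1 := keep_length l T
    rcases Nat.lt_or_ge e l.length with he | he
    · have h2 : ((Finset.range l.length).filter (· ∈ T)).card ≤ l.length - e := by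
        rw [← Nat.card_Ico]
        apply Finset.card_le_card
        intro k hk
        rw [Finset.mem_filter, Finset.mem_range] at hk
        rw [Finset.mem_Ico]
        exact ⟨hT k hk.2, hk.1⟩
      omega
    · rw [keep_eq_self (l := l) (S := T)]
      intro i hi hiT
      have := hT i hiT
      omega
  have h1 := key B.1 {i | (false, i) ∈ S} (fun i hi => h (false, i) hi)
  have h2 := key B.2 {i | (true, i) ∈ S} (fun i hi => h (true, i) hi)
  simp only [N, size, del]
  omega

/-- the number of deleted tiles is at least the number of given cells with tiles in `S` -/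
lemma card_le_gone {B : Board} {S : Set Cell} (F : Finset Cell)
    (hF : ∀ z ∈ F, z ∈ S ∧ z.2 < (col B z.1).length) : F.card + size (del B S) ≤ size B := by
  classical
  have h1 := keep_length B.1 {i | (false, i) ∈ S}
  have h2 := keep_length B.2 {i | (true, i) ∈ S}
  have h3 : F.card = (F.filter fun z => z.1 = false).card + (F.filter fun z => z.1 = true).card := by
    rw [← Finset.card_union_of_disjoint]
    · congr 1
      ext z
      simp only [Finset.mem_union, Finset.mem_filter]
      cases z.1 <;> simp
    · rw [Finset.disjoint_filter]
      intro z _ h h'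
      rw [h] at h'
      exact Bool.false_ne_true h'
  have h4 : (F.filter fun z => z.1 = false).card ≤
      ((Finset.range B.1.length).filter (· ∈ {i | (false, i) ∈ S})).card := by
    apply Finset.card_le_card_of_injOn Prod.snd
    · intro z hz
      rw [Finset.mem_coe, Finset.mem_filter] at hz
      obtain ⟨hz1, hz2⟩ := hz
      obtain ⟨hz3, hz4⟩ := hF z hz1
      rw [Finset.mem_coe, Finset.mem_filter, Finset.mem_range]
      rw [hz2] at hz4
      refine ⟨hz4, ?_⟩
      change (false, z.2) ∈ S
      rw [← hz2]
      exact hz3
    · intro z hz w hw hzw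
      rw [Finset.mem_coe, Finset.mem_filter] at hz hw
      exact Prod.ext (hz.2.trans hw.2.symm) hzw
  have h5 : (F.filter fun z => z.1 = true).card ≤
      ((Finset.range B.2.length).filter (· ∈ {i | (true, i) ∈ S})).card := by
    apply Finset.card_le_card_of_injOn Prod.snd
    · intro z hz
      rw [Finset.mem_coe, Finset.mem_filter] at hz
      obtain ⟨hz1, hz2⟩ := hz
      obtain ⟨hz3, hz4⟩ := hF z hz1
      rw [Finset.mem_coe, Finset.mem_filter, Finset.mem_range]
      rw [hz2] at hz4
      refine ⟨hz4, ?_⟩
      change (true, z.2) ∈ S
      rw [← hz2]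
      exact hz3
    · intro z hz w hw hzw
      rw [Finset.mem_coe, Finset.mem_filter] at hz hw
      exact Prod.ext (hz.2.trans hw.2.symm) hzw
  simp only [size, del]
  omega

lemma mem_len {B : Board} {z : Cell} {c : Bool} (h : tile B z = some c) :
    z.2 < (col B z.1).length := tile_isSome.1 ⟨c, h⟩

/-- a move deletes at least two tiles -/
lemma two_le_gone {B : Board} {x y : Cell} (h : Link B x y) :
    2 + size (del B (group B x)) ≤ size B := by
  classical
  have h1 := card_le_gone (B := B) (S := group B x) {x, y} (by
    intro z hz
    rw [Finset.mem_insert, Finset.mem_singleton] at hz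
    obtain ⟨_, c, h1, h2⟩ := id h
    rcases hz with rfl | rfl
    · exact ⟨mem_group_self B _, mem_len h1⟩
    · exact ⟨group_closed (mem_group_self B _) h, mem_len h2⟩)
  rwa [Finset.card_pair h.ne] at h1

lemma tile_del_low {B : Board} {S : Set Cell} {j : Bool} {e i : ℕ} (h : ∀ z ∈ S, e ≤ z.2)
    (hi : i < e) : tile (del B S) (j, i) = tile B (j, i) := by
  rw [tile_eq, tile_eq, col_del]
  exact keep_getElem?_low (e := e) (fun k hk hk' => by have := h _ hk'; simp only at this; omega) hi

lemma Al.del {B : Board} {S : Set Cell} {m e : ℕ} {c : Bool} (hA : Al B m c) (hem : e ≤ m)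
    (h : ∀ z ∈ S, e ≤ z.2) : Al (del B S) e c := by
  rintro ⟨j, i⟩ t hi ht
  rw [tile_del_low h hi] at ht
  exact hA (j, i) t (lt_of_lt_of_le hi hem) ht

/-- one may assume that the row `m` contains a tile which deviates from the checkerboard -/
lemma normalize {B : Board} {c : Bool} {x y : Cell} (h : Link B x y) (k : ℕ) :
    ∀ m, N B m = k → Al B m c → ∃ m', Al B m' c ∧ N B m' ≤ k ∧
      ∃ j, tile B (j, m') = some (!cb c (j, m')) := by
  induction k using Nat.strong_induction_on with
  | _ k ih =>
    intro m hk hA
    by_cases hbad : ∃ j, tile B (j, m) = some (!cb c (j, m))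
    · exact ⟨m, hA, hk.le, hbad⟩
    · have hA' : Al B (m + 1) c := by
        rintro ⟨j, i⟩ t hi ht
        rcases Nat.lt_or_ge i m with h1 | h1
        · exact hA (j, i) t h1 ht
        · have : i = m := by simp only at hi; omega
          subst this
          by_contra hne
          apply hbad
          refine ⟨j, ?_⟩
          rw [ht]
          congr 1
          cases t <;> cases hcb : cb c (j, i) <;> simp_all
      have hpos : 0 < N B m := by
        rw [Nat.pos_iff_ne_zero]
        intro h0
        have h1 := h.2
        obtain ⟨d, hx, hy⟩ := h1
        have hx' := mem_len hx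
        have hy' := mem_len hy
        have hxm : x.2 < m := by
          have := N_eq B m x.1
          omega
        have hym : y.2 < m := by
          have := N_eq B m y.1
          omega
        have := hA.link h hxm
        omega
      have hlt : N B (m + 1) < k := by
        rw [← hk]
        simp only [N] at hpos ⊢
        omega
      obtain ⟨m', h1, h2, h3⟩ := ih _ hlt (m + 1) rfl hA'
      exact ⟨m', h1, by omega, h3⟩

/-- **One move.** -/
theorem pot_step {B : Board} {x y : Cell} {n : ℕ} (hn : Pot B n) (h : Link B x y) :
    ∃ n', Pot (del B (group B x)) n' ∧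
      3 * n' + size B ≤ 3 * n + size (del B (group B x)) := by
  classical
  obtain ⟨c', hc'⟩ := group_color h
  -- normal form
  obtain ⟨m, c, hA, ⟨j₀, hbad⟩, hdich⟩ : ∃ m c, Al B m c ∧
      (∃ j, tile B (j, m) = some (!cb c (j, m))) ∧
      (2 * N B m + 1 ≤ n ∨ (T1 B m c ∧ 2 * N B m ≤ n)) := by
    obtain ⟨m, c, hA, h1 | ⟨h1, h2⟩⟩ := hn
    · obtain ⟨m', h3, h4, h5⟩ := normalize h _ m rfl hA
      exact ⟨m', c, h3, h5, Or.inl (by omega)⟩
    · obtain ⟨j, h3, h4⟩ := id h1
      exact ⟨m, c, hA, ⟨j, h3⟩, Or.inr ⟨h1, h2⟩⟩
  have hn' : 2 * N B m ≤ n := by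
    rcases hdich with h1 | ⟨_, h1⟩ <;> omega
  have h2 := two_le_gone h
  set G := group B x with hG
  by_cases hlow : ∀ z ∈ G, m ≤ z.2
  · -- no deletion below `m`
    have h3 := N_del (B := B) hlow
    refine ⟨2 * N (del B G) m + 1, ⟨m, c, hA.del le_rfl hlow, Or.inl le_rfl⟩, ?_⟩
    omega
  · push Not at hlow
    obtain ⟨z, hz, hzm⟩ := hlow
    -- cells of the group below `m`
    have hstep : ∀ z ∈ G, z.2 < m → z.2 + 1 = m ∧ (z.1, m) ∈ G := by
      intro z hz hzm
      obtain ⟨w, hw, hl⟩ := group_neighbour h hz
      have h3 := hA.link hl hzm
      rcases hl.1 with ⟨h4, h5 | h5⟩ | ⟨h4, h5⟩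
      · have h6 : z.2 + 1 = m := by omega
        refine ⟨h6, ?_⟩
        have : (z.1, m) = w := by
          ext1
          · exact h4
          · simp only; omega
        rw [this]
        exact hw
      · omega
      · omega
    obtain ⟨hz1, hz2⟩ := hstep z hz hzm
    obtain ⟨j, i⟩ := z
    simp only at hz1 hz2 hzm
    subst hz1
    -- the colour of the group
    have hcz : c' = cb c (j, i) := hA (j, i) c' hzm (hc' _ hz)
    have hzb : tile B (j, i + 1) = some (!cb c (j, i + 1)) := by
      rw [hc' _ hz2, cb_up, Bool.not_not, hcz]
    have hlow' : ∀ w ∈ G, i ≤ w.2 := by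
      intro w hw
      by_contra hcon
      have := (hstep w hw (by omega)).1
      omega
    have hlj := mem_len (hc' _ hz2)
    simp only at hlj
    have hNi : N B i ≤ N B (i + 1) + 2 := by
      simp only [N]
      omega
    have h3 := N_del (B := B) hlow'
    by_cases hg : 3 + size (del B G) ≤ size B
    · refine ⟨2 * N (del B G) i + 1, ⟨i, c, hA.del (by omega) hlow', Or.inl le_rfl⟩, ?_⟩
      omega
    · have hg2 : size B = 2 + size (del B G) := by omega
      -- the group has exactly two cells
      have honly : ∀ w ∈ G, w = (j, i) ∨ w = (j, i + 1) := by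
        intro w hw
        by_contra hcon
        push Not at hcon
        apply hg
        have h4 := card_le_gone (B := B) (S := G) {w, (j, i), (j, i + 1)} (by
          intro v hv
          simp only [Finset.mem_insert, Finset.mem_singleton] at hv
          rcases hv with rfl | rfl | rfl
          · exact ⟨hw, mem_len (hc' _ hw)⟩
          · exact ⟨hz, mem_len (hc' _ hz)⟩
          · exact ⟨hz2, mem_len (hc' _ hz2)⟩)
        rw [Finset.card_insert_of_notMem (by simp [hcon.1, hcon.2]),
          Finset.card_pair (by simp)] at h4
        exact h4
      have hside : ∀ k, (!j, k) ∉ G := by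
        intro k hk
        rcases honly _ hk with h4 | h4
        · have := (Prod.ext_iff.1 h4).1
          cases j <;> simp at this
        · have := (Prod.ext_iff.1 h4).1
          cases j <;> simp at this
      -- the row is not of type `T1`
      have hnT : 2 * N B (i + 1) + 1 ≤ n := by
        rcases hdich with h4 | ⟨⟨j₁, h4, h5⟩, _⟩
        · exact h4
        · exfalso
          have hj : j₁ = j := by
            by_contra hne
            have h6 : (!j₁) = j := by cases j₁ <;> cases j <;> simp_all
            rw [h6, hzb, Option.some.injEq] at h5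
            cases hcb : cb c (j, i + 1) <;> simp [hcb] at h5
          subst hj
          apply hside (i + 1)
          refine group_closed hz2 ⟨Or.inr ⟨by cases j₁ <;> simp, rfl⟩, c', hc' _ hz2, ?_⟩
          rw [h5, cb_side, cb_up, Bool.not_not, hcz]
      rcases Nat.lt_or_ge i (col B (!j)).length with hs | hs
      · -- the other tile of the row `i` exists
        have hNi2 : N B i = N B (i + 1) + 2 := by
          rw [N_eq B i j, N_eq B (i + 1) j]
          omega
        have hN' : N (del B G) i = N B (i + 1) := by omega
        have hsidecol : col (del B G) (!j) = col B (!j) := by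
          rw [col_del]
          exact keep_eq_self fun k _ => hside k
        have hjrow : (col (del B G) j)[i]? = (col B j)[i + 2]? := by
          rw [col_del]
          refine keep_getElem?_first (by omega) (fun k hk hk' => ?_) (fun k hk1 hk2 => ?_) ?_
          · have := hlow' _ hk'
            simp only at this
            omega
          · rcases (show k = i ∨ k = i + 1 by omega) with rfl | rfl
            · exact hz
            · exact hz2
          · intro h4
            rcases honly _ h4 with h5 | h5
            · have := (Prod.ext_iff.1 h5).2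
              simp at this
            · have := (Prod.ext_iff.1 h5).2
              simp at this
        rcases Nat.lt_or_ge (i + 2) (col B j).length with ht | ht
        · -- the tile above exists
          obtain ⟨d, hd⟩ := tile_isSome.2 ht
          have h4 : d = !c' := by
            refine near_group (z := (j, i + 1)) (w := (j, i + 2)) hc' hz2 ?_ (Or.inl ⟨rfl, Or.inl rfl⟩) d hd
            intro h4
            rcases honly _ h4 with h5 | h5
            · have := (Prod.ext_iff.1 h5).2
              simp at this
            · have := (Prod.ext_iff.1 h5).2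
              simp at this
          have hT1 : T1 (del B G) i c := by
            refine ⟨j, ?_, ?_⟩
            · rw [tile_eq, hjrow, ← tile_eq, hd, h4, hcz]
            · obtain ⟨d', hd'⟩ := tile_isSome.2 hs
              have h5 := hA (!j, i) d' (by simp) hd'
              rw [tile_eq, hsidecol, ← tile_eq, hd', h5]
          refine ⟨2 * N (del B G) i, ⟨i, c, hA.del (by omega) hlow', Or.inr ⟨hT1, le_rfl⟩⟩, ?_⟩
          omega
        · -- the tile above does not exist
          have hlen : (col (del B G) j).length ≤ i := by
            rw [← List.getElem?_eq_none_iff, hjrow, List.getElem?_eq_none_iff]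
            exact ht
          have hA2 : Al (del B G) (i + 1) c := by
            rintro ⟨k, l⟩ t hl ht'
            rcases Nat.lt_or_ge l i with h4 | h4
            · exact hA.del (e := i) (by omega) hlow' (k, l) t h4 ht'
            · have hli : l = i := by simp only at hl; omega
              subst hli
              by_cases hkj : k = j
              · subst hkj
                have := mem_len ht'
                simp only at this
                omega
              · have : k = !j := by cases k <;> cases j <;> simp_all
                subst this
                rw [tile_eq, hsidecol, ← tile_eq] at ht'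
                exact hA (!j, l) t (by simp) ht'
          have hN2 : N (del B G) (i + 1) + 1 ≤ N B (i + 1) := by
            have h5 := N_eq (del B G) (i + 1) j
            have h6 := N_eq B (i + 1) j
            rw [hsidecol] at h5
            omega
          refine ⟨2 * N (del B G) (i + 1) + 1, ⟨i + 1, c, hA2, Or.inl le_rfl⟩, ?_⟩
          omega
      · -- the other tile of the row `i` does not exist
        have hNi1 : N B i = N B (i + 1) + 1 := by
          rw [N_eq B i j, N_eq B (i + 1) j]
          omega
        refine ⟨2 * N (del B G) i + 1, ⟨i, c, hA.del (by omega) hlow', Or.inl le_rfl⟩, ?_⟩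
        omega

/-- **All moves.** -/
theorem pot_bound {B F : Board} {s : List Cell} (hp : Play B s F) :
    ∀ n, Pot B n → size B ≤ size F + 3 * n := by
  induction hp with
  | nil B => intro n _; omega
  | cons h _ ih =>
    intro n hn
    obtain ⟨n', h1, h2⟩ := pot_step hn h
    have := ih n' h1
    omega

end Pool.Agent.H10C
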