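import Pool.Agent.Lib.H10C.Struct
import Pool.Agent.Lib.H10C.Pot

/-!
# Every maximal play is near-optimal when both final columns are non-empty
-/

set_option autoImplicit false

namespace Pool.Agent.H10C

open Relation

lemma size_play_le {B E : Board} {s : List Cell} (hp : Play B s E) : size E ≤ size B := by
  induction hp with
  | nil B => exact le_rfl
  | cons h _ ih => exact ih.trans (size_del_le _ _)

lemma stuck_play {B F : Board} {s : List Cell} (hB : Stuck B) (hp : Play B s F) : F = B := by
  cases hp with
  | nil => rfl
  | cons h _ => exact absurd h (hB _ _)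

lemma stuck_up {E : Board} (hE : Stuck E) {j : Bool} {i : ℕ} {u v : Bool}
    (hu : tile E (j, i) = some u) (hv : tile E (j, i + 1) = some v) : v = !u := by
  by_contra hne
  have : v = u := by cases u <;> cases v <;> simp_all
  subst this
  exact hE (j, i) (j, i + 1) ⟨Or.inl ⟨rfl, Or.inl rfl⟩, v, hu, hv⟩

/-- a stuck board with two non-empty columns is a checkerboard -/
lemma stuck_cb {E : Board} (hE : Stuck E) (hne : ∀ j, col E j ≠ []) :
    ∃ c, ∀ x t, tile E x = some t → t = cb c x := by
  have hpos : ∀ j, 0 < (col E j).length := fun j => List.length_pos_of_ne_nil (hne j)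
  obtain ⟨c, hc⟩ := tile_isSome.2 (hpos false)
  obtain ⟨d, hd⟩ := tile_isSome.2 (hpos true)
  have hdc : d = !c := by
    by_contra hcon
    have : d = c := by cases c <;> cases d <;> simp_all
    subst this
    exact hE (false, 0) (true, 0) ⟨Or.inr ⟨by simp, rfl⟩, d, hc, hd⟩
  refine ⟨c, ?_⟩
  rintro ⟨j, i⟩
  induction i with
  | zero =>
    intro t ht
    cases j
    · rw [hc, Option.some.injEq] at ht
      simp [cb, ht]
    · rw [hd, Option.some.injEq] at ht
      rw [← ht, hdc]
      simp [cb]
  | succ i ih =>
    intro t ht
    have hi := mem_len ht
    simp only at hi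
    obtain ⟨u, hu⟩ := tile_isSome.2 (show i < (col E j).length by omega)
    rw [stuck_up hE hu ht, cb_up, ih u hu]

lemma tile_of_prefix {B E : Board} {j : Bool} (hp : col E j <+: col B j) {i : ℕ}
    (hi : i < (col E j).length) : tile B (j, i) = tile E (j, i) := by
  rw [tile_eq, tile_eq, (List.prefix_iff_getElem?.1 hp) i hi, List.getElem?_eq_getElem hi]

/-- after a maximal play with two non-empty final columns, few tiles of the first board lie above
a checkerboard -/
lemma few_above {B E : Board} {s : List Cell} (hplay : Play B s E) (hE : Stuck E)
    (hne : ∀ j, col E j ≠ []) : ∃ m c, Al B m c ∧ N B m + size E ≤ size B + 1 := by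
  obtain ⟨c, hc⟩ := stuck_cb hE hne
  have hpre := prefix_of_play hplay hE hne
  have hlen : ∀ j, (col E j).length ≤ (col B j).length := fun j => (hpre j).length_le
  have hAl : ∀ m, (∀ j, (m ≤ (col E j).length ∨ col E j = col B j)) → Al B m c := by
    rintro m hm ⟨j, i⟩ t hi ht
    rcases hm j with h1 | h1
    · rw [tile_of_prefix (hpre j) (by simp only at hi; omega)] at ht
      exact hc _ t ht
    · apply hc
      rw [tile_eq, h1, ← tile_eq]
      exact ht
  have hs1 := size_eq E false
  have hs2 := size_eq B false
  have h1 := hlen false
  have h2 := hlen true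
  have hN : ∀ m, N B m = ((col B false).length - m) + ((col B true).length - m) := fun m =>
    N_eq B m false
  simp only [Bool.not_false] at hs1 hs2
  rcases Nat.lt_or_ge ((col E false).length + 1) (col E true).length with h3 | h3
  · have h4 := untouched_of_play hplay hE hne false (by simp only [Bool.not_false]; omega)
    refine ⟨(col E true).length, c, hAl _ ?_, ?_⟩
    · intro j
      cases j
      · exact Or.inr h4
      · exact Or.inl le_rfl
    · rw [hN]
      have h5 : (col E false).length = (col B false).length := by rw [h4]
      omega
  · rcases Nat.lt_or_ge ((col E true).length + 1) (col E false).length with h3' | h3'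
    · have h4 := untouched_of_play hplay hE hne true (by simp only [Bool.not_true]; omega)
      refine ⟨(col E false).length, c, hAl _ ?_, ?_⟩
      · intro j
        cases j
        · exact Or.inl le_rfl
        · exact Or.inr h4
      · rw [hN]
        have h5 : (col E true).length = (col B true).length := by rw [h4]
        omega
    · refine ⟨min (col E false).length (col E true).length, c, hAl _ ?_, ?_⟩
      · intro j
        cases j
        · exact Or.inl (min_le_left _ _)
        · exact Or.inl (min_le_right _ _)
      · rw [hN]
        omega

/-- **Both final columns non-empty.** -/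
theorem near_optimal {B E F : Board} {s s' : List Cell} (hplay : Play B s E) (hE : Stuck E)
    (hne : ∀ j, col E j ≠ []) (hp : Play B s' F) :
    size B + 6 * size E ≤ size F + 6 * size B + 9 := by
  obtain ⟨m, c, hA, hN⟩ := few_above hplay hE hne
  have h1 := pot_bound hp (2 * N B m + 1) ⟨m, c, hA, Or.inl le_rfl⟩
  have h2 := size_play_le hplay
  omega

/-- a maximal play which deletes something deletes at least two tiles -/
lemma zero_or_two {B E : Board} {s : List Cell} (hplay : Play B s E) (hE : Stuck E) :
    Stuck B ∨ size E + 2 ≤ size B := by
  cases hplay with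
  | nil => exact Or.inl hE
  | cons h hp =>
    right
    have h1 := two_le_gone h
    have h2 := size_play_le hp
    omega

/-- lengths of the columns never grow -/
lemma col_play_le {B E : Board} {s : List Cell} (hp : Play B s E) (j : Bool) :
    (col E j).length ≤ (col B j).length := by
  induction hp with
  | nil B => exact le_rfl
  | cons h _ ih =>
    refine ih.trans ?_
    rw [col_del]
    exact keep_length_le _ _

end Pool.Agent.H10C
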