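import Pool.Agent.Lib.H10C.Casc

/-!
# One period of the machine
-/

set_option autoImplicit false

namespace Pool.Agent.H10C

/-! ### the numbers `vv m i` -/

lemma vv_zero (m : ℕ) : vv (m + 1) 0 = 1 := rfl

lemma vv_mid (m : ℕ) : ∀ i, i + 1 < m → vv m (i + 1) = 3 * 2 ^ i := by
  induction m with
  | zero => intro i h; omega
  | succ m ih =>
    intro i h
    rw [vv]
    cases i with
    | zero =>
      obtain ⟨n, rfl⟩ : ∃ n, m = n + 1 := ⟨m - 1, by omega⟩
      simp [vv, e0]
    | succ i =>
      rw [ih i (by omega), e0, if_neg (by omega), pow_succ]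
      ring

lemma vv_last (m : ℕ) : vv (m + 1) (m + 1) = 2 ^ m := by
  induction m with
  | zero => simp [vv, e0]
  | succ m ih =>
    rw [vv, ih, e0, if_neg (by omega), pow_succ]
    ring

lemma vv_gt (m : ℕ) : ∀ i, m < i → vv m i = 0 := by
  induction m with
  | zero => intro i _; rfl
  | succ m ih =>
    intro i h
    obtain ⟨j, rfl⟩ : ∃ j, i = j + 1 := ⟨i - 1, by omega⟩
    rw [vv, ih j (by omega), e0, if_neg (by omega)]

lemma sm_e0 (m : ℕ) : sm (m + 1) e0 = 1 := by
  rw [sm_succ]
  have : ∀ m, sm m (fun i => e0 (i + 1)) = 0 := by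
    intro m
    induction m with
    | zero => rfl
    | succ m ih =>
      rw [sm_succ', ih]
      simp [e0]
  rw [this]
  simp [e0]

lemma sm_two (m : ℕ) (g : ℕ → ℕ) : sm m (fun i => 2 * g i) = 2 * sm m g := by
  induction m with
  | zero => rfl
  | succ m ih => rw [sm_succ', ih, sm_succ']; ring

lemma sm_vv (m : ℕ) : sm (m + 1) (vv m) + 2 = 2 ^ (m + 1) := by
  induction m with
  | zero => rfl
  | succ m ih =>
    rw [sm_succ, vv_zero]
    have h1 : sm (m + 1) (fun i => vv (m + 1) (i + 1)) =
        sm (m + 1) (fun i => 2 * vv m i) + sm (m + 1) e0 := by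
      rw [← sm_add]
      rfl
    rw [h1, sm_two, sm_e0, pow_succ, ← ih]
    ring

lemma sm_vv' (m : ℕ) : sm (m + 1) (vv (m + 1)) + 2 = 3 * 2 ^ m := by
  have h1 := sm_vv (m + 1)
  rw [sm_succ', vv_last] at h1
  have h2 : (2 : ℕ) ^ (m + 1 + 1) = 4 * 2 ^ m := by rw [pow_succ, pow_succ]; ring
  omega

/-! ### the trigger -/

lemma bs_head (k J t : ℕ) (hJ : 0 < J) : (bs k (tri J (top t)))[0]? = some false := by
  cases k with
  | succ k => rfl
  | zero =>
    obtain ⟨j, rfl⟩ : ∃ j, J = j + 1 := ⟨J - 1, by omega⟩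
    rfl

lemma trig {k J t : ℕ} {P : List Bool} (hJ : 0 < J) (hP : P[0]? = some false) :
    Reach (bd (k + 1) J t P) (bd k J t P) := by
  have h1 : Reach (bd (k + 1) J t P) (true :: bs k (tri J (top t)), true :: true :: xs k P) := by
    apply floor_move
    · intro u hu
      simp only [List.getElem?_cons_zero, Option.some.injEq] at hu
      rw [← hu]
      simp
    · intro u hu
      simp only [List.getElem?_cons_zero, Option.some.injEq] at hu
      rw [← hu]
      simp
  refine h1.trans ?_
  apply floor_move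
  · intro u hu
    rw [bs_head k J t hJ, Option.some.injEq] at hu
    rw [← hu]
    simp
  · intro u hu
    cases k with
    | zero =>
      rw [xs, hP, Option.some.injEq] at hu
      rw [← hu]
      simp
    | succ k =>
      simp only [xs, List.getElem?_cons_zero, Option.some.injEq] at hu
      rw [← hu]
      simp

lemma head_seg {L : List Bool} {c : Bool} (h : (L ++ [c])[0]? = some false) (m : ℕ) (g : ℕ → ℕ)
    (R : List Bool) (hg : 1 ≤ g 0) : (L ++ seg m c g R)[0]? = some false := by
  cases L with
  | nil =>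
    rw [List.nil_append, seg_head _ _ _ _ hg]
    exact h
  | cons a L => exact h

/-- one round: the trigger and the cascade -/
lemma round {k J t m : ℕ} {L : List Bool} {c : Bool} {g g' : ℕ → ℕ} (R : List Bool) (hJ : 0 < J)
    (hg : ∀ i, g i = g' i + vv m i) (hW : W (k + 1) m L.length c g) (hpos : ∀ i ≤ m, 1 ≤ g' i)
    (hlen : L.length + sm m g + 2 * k < 6 * J) (hhead : (L ++ [c])[0]? = some false) :
    Reach (bd (k + 1) J t (L ++ seg m c g R)) (bd k J t (L ++ seg m c g' R)) ∧
      W k m L.length c g' := by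
  have hfun : g = fun i => g' i + vv m i := funext hg
  have hW' : W k m L.length c g' := by
    rw [W_two, hfun, W_vv] at hW
    exact hW
  refine ⟨?_, hW'⟩
  have h0 := hpos 0 (Nat.zero_le _)
  have h1 := hg 0
  refine (trig hJ (head_seg hhead m g R (by omega))).trans ?_
  rw [hfun]
  rw [hfun] at hlen
  exact casc k J t m L c g' R hW' hpos hlen

/-! ### the creation of a new pair -/

lemma left_last {k J n i : ℕ} {u : Bool} (hJ : 0 < J)
    (hi : (bs k (tri J (top n))).length = i + 1) (hu : (bs k (tri J (top n)))[i]? = some u) :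
    u = !n.bodd := by
  rw [bs_length, tri_length, top_length] at hi
  obtain ⟨r, rfl⟩ : ∃ r, i = 2 * k + r := ⟨6 * J + 2 * n - 1, by omega⟩
  rw [bs_getElem?] at hu
  cases n with
  | zero =>
    rw [tri_getElem? J _ _ (by omega), Option.some.injEq] at hu
    rw [← hu]
    simp only [Nat.bodd_zero, Bool.not_false, decide_eq_true_eq]
    omega
  | succ n =>
    have h1 : top (n + 1) = (top n ++ [n.bodd]) ++ [n.bodd] := by simp [top]
    rw [h1, tri_append, List.getElem?_append_right (by
      rw [tri_length, List.length_append, top_length]; simp; omega)] at hu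
    have h2 : r - (tri J (top n ++ [n.bodd])).length = 0 := by
      rw [tri_length, List.length_append, top_length]; simp; omega
    rw [h2] at hu
    simp only [List.getElem?_cons_zero, Option.some.injEq] at hu
    rw [← hu, Nat.bodd_succ, Bool.not_not]

/-- a move of the new pair above the left column, or next to its top tile -/
lemma free_move {k J n : ℕ} {A : List Bool} {s : Bool} {h N : ℕ} (hJ : 0 < J) (hh : 1 ≤ h)
    (hN : 1 ≤ N) (hlen : A.length + h + 2 * k = 6 * J + 2 * n ∨
      (A.length + h + 2 * k + 1 = 6 * J + 2 * n ∧ nx s h = !n.bodd)) :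
    Reach (bd k J n (A ++ (alt s (h + 1) ++ alt (nx s (h + 1)) (N + 1))))
      (bd k J n (A ++ (alt s h ++ alt (nx s h) N))) := by
  unfold bd
  have e1 : xs k (A ++ (alt s (h + 1) ++ alt (nx s (h + 1)) (N + 1))) =
      (xs k [] ++ (A ++ alt s h)) ++ nx s (h + 1) :: nx s (h + 1) :: alt (nx s h) N := by
    rw [← List.nil_append (A ++ _), xs_append, alt_succ', nx_succ, alt, Bool.not_not]
    simp
  have e2 : xs k (A ++ (alt s h ++ alt (nx s h) N)) =
      (xs k [] ++ (A ++ alt s h)) ++ alt (nx s h) N := by
    rw [← List.nil_append (A ++ _), xs_append]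
    simp
  rw [e1, e2]
  have hlenA : (xs k [] ++ (A ++ alt s h)).length = 4 * k + (A.length + h) := by
    rw [List.length_append, List.length_append, alt_length, xs_length]
    simp
  have hlenS : (bs k (tri J (top n))).length = 2 * k + (6 * J + 2 * n) := by
    rw [bs_length, tri_length, top_length]
  apply pair_move
  · intro i u hi hu
    obtain ⟨h', rfl⟩ : ∃ h', h = h' + 1 := ⟨h - 1, by omega⟩
    rw [← List.append_assoc] at hi hu
    rw [alt_last s _ i u hi hu, nx_succ s (h' + 1)]
    cases nx s (h' + 1) <;> simp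
  · intro u hu
    obtain ⟨N', rfl⟩ : ∃ N', N = N' + 1 := ⟨N - 1, by omega⟩
    simp only [alt, List.getElem?_cons_zero, Option.some.injEq] at hu
    rw [← hu, nx_succ]
    cases nx s h <;> simp
  · intro hcon
    rcases hlen with hlen | ⟨hlen, hx⟩
    · rw [List.getElem?_eq_none (by rw [hlenS, hlenA]; omega)] at hcon
      simp at hcon
    · have := left_last hJ (i := 2 * k + (6 * J + 2 * n) - 1) (by rw [hlenS]; omega)
        (by rw [← hcon, hlenA]; congr 1; omega)
      rw [nx_succ, hx] at this
      cases hb : n.bodd <;> rw [hb] at this <;> simp at this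
  · rw [List.getElem?_eq_none (by rw [hlenS, hlenA]; omega)]
    simp

/-- the top move -/
lemma create_move {k J n : ℕ} {A : List Bool} {s : Bool} {h N : ℕ} (hJ : 0 < J) (hh : 1 ≤ h)
    (hN : 1 ≤ N) (hlen : A.length + h + 2 * k = 6 * J + 2 * n + 1)
    (hs : (s ^^ h.bodd) = n.bodd) :
    Reach (bd k J (n + 1) (A ++ alt s (h + 1 + N))) (bd k J n (A ++ (alt s h ++ alt (nx s h) N))) := by
  unfold bd
  have hlenS : (bs k (tri J (top n))).length = 2 * k + (6 * J + 2 * n) := by
    rw [bs_length, tri_length, top_length]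
  have hlenA : (xs k [] ++ (A ++ alt s h)).length = 4 * k + (A.length + h) := by
    rw [List.length_append, List.length_append, alt_length, xs_length]
    simp
  have e1 : xs k (A ++ alt s (h + 1 + N)) =
      (xs k [] ++ (A ++ alt s h)) ++ n.bodd :: alt (nx s h) N := by
    rw [← List.nil_append (A ++ _), xs_append, alt_split, hs]
    simp
  have e2 : xs k (A ++ (alt s h ++ alt (nx s h) N)) =
      (xs k [] ++ (A ++ alt s h)) ++ alt (nx s h) N := by
    rw [← List.nil_append (A ++ _), xs_append]
    simp
  have e3 : bs k (tri J (top (n + 1))) = bs k (tri J (top n)) ++ [n.bodd, n.bodd] := by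
    rw [top, tri_append, bs_append]
  rw [e1, e2, e3]
  have hnx : nx s h = !n.bodd := by rw [nx, hs]
  apply top_move
  · rw [hlenA, hlenS]
    omega
  · intro i u hi hu
    rw [left_last hJ hi hu]
    cases n.bodd <;> simp
  · intro u hu
    obtain ⟨h', rfl⟩ : ∃ h', h = h' + 1 := ⟨h - 1, by omega⟩
    rw [← List.append_assoc] at hu
    rw [alt_last s _ _ u (by rw [List.append_assoc, hlenA, hlenS]; omega) hu, hnx]
    cases n.bodd <;> simp
  · intro u hu
    obtain ⟨N', rfl⟩ : ∃ N', N = N' + 1 := ⟨N - 1, by omega⟩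
    simp only [alt, List.getElem?_cons_zero, Option.some.injEq] at hu
    rw [← hu, hnx]
    cases n.bodd <;> simp

/-- a new pair is created and makes `o` moves above the left column -/
lemma create {k J n : ℕ} {A : List Bool} {s : Bool} {h N o : ℕ} (hJ : 0 < J) (hh : 1 ≤ h)
    (hN : 1 ≤ N) (ho : o ≤ 2) (hlen : A.length + (h + o) + 2 * k = 6 * J + 2 * n + 1)
    (hs : (s ^^ (h + o).bodd) = n.bodd) :
    Reach (bd k J (n + 1) (A ++ alt s (h + o + 1 + (N + o))))
      (bd k J n (A ++ (alt s h ++ alt (nx s h) N))) := by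
  refine (create_move hJ (by omega) (by omega) hlen hs).trans ?_
  obtain rfl | rfl | rfl : o = 0 ∨ o = 1 ∨ o = 2 := by omega
  · exact Reach.refl _
  · exact free_move hJ hh hN (Or.inl (by omega))
  · have h1 : nx s h = !n.bodd := by
      rw [← hs, Nat.bodd_add, nx]
      cases s <;> cases h.bodd <;> rfl
    exact (free_move (h := h + 1) (N := N + 1) hJ (by omega) (by omega) (Or.inl (by omega))).trans
      (free_move hJ hh hN (Or.inr ⟨by omega, h1⟩))

end Pool.Agent.H10C
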