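import Pool.Agent.Lib.H10C.Machine
import Pool.Agent.Lib.H10C.Bad

/-!
# A maximal play which deletes about the square root of the optimum
-/

set_option autoImplicit false

namespace Pool.Agent.H10C

/-! ### many periods -/

lemma St.mono {J m n N N' : ℕ} {L : List Bool} {c : Bool} {g : ℕ → ℕ} (h : St J m n N L c g)
    (hN : N' ≤ N) : St J m n N' L c g :=
  ⟨h.hW, h.h0, h.hi, hN.trans h.hN, h.hpos, h.hcol, h.hhead⟩

theorem periods {J μ : ℕ} (hJ : 0 < J) (hE : 2 ^ (μ + 3) % 6 = 2) (n : ℕ) :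
    n ≤ 2 ^ (μ + 2) → ∀ (L : List Bool) (c : Bool) (g : ℕ → ℕ),
    St J (μ + 2) n (n * (6 * J + 3 * 2 ^ (μ + 2) + 6)) L c g →
    ∃ (L' : List Bool) (c' : Bool) (g' : ℕ → ℕ),
      Reach (bd (3 * n) J n (L ++ seg (μ + 2) c g [])) (bd 0 J 0 (L' ++ seg (μ + 2) c' g' [])) ∧
      L'.length + sm (μ + 3) g' + n * (3 * 2 ^ (μ + 3)) ≤ L.length + sm (μ + 3) g + 6 * n := by
  induction n with
  | zero =>
    intro _ L c g _
    exact ⟨L, c, g, Reach.refl _, by simp⟩
  | succ n ih =>
    intro hn L c g hst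
    have h1 : n * (6 * J + 3 * 2 ^ (μ + 2) + 6) + 6 * J + 2 * n + 2 ^ (μ + 2) + 6 ≤
        (n + 1) * (6 * J + 3 * 2 ^ (μ + 2) + 6) := by
      rw [Nat.add_mul, Nat.one_mul]
      omega
    obtain ⟨L', c', g', h2, h3, h4⟩ := period hJ hE hn (hst.mono h1)
    obtain ⟨L'', c'', g'', h5, h6⟩ := ih (by omega) L' c' g' h2
    refine ⟨L'', c'', g'', h3.trans h5, ?_⟩
    have h7 : (n + 1) * (3 * 2 ^ (μ + 3)) = n * (3 * 2 ^ (μ + 3)) + 3 * 2 ^ (μ + 3) := by ring
    omega

/-! ### the initial state -/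

/-- the heights of the segments in the beginning -/
def gp (a i : ℕ) : ℕ := 12 * 2 ^ (a + i) + 2 - (a + i) % 2

lemma W_gp (k m : ℕ) : ∀ (a l : ℕ) (c : Bool), (l + 2 * k + 3 * c.toNat) % 6 = (a + 1) % 2 →
    W k m l c (gp a) := by
  induction m with
  | zero => intro a l c _; trivial
  | succ m ih =>
    intro a l c h
    have hfun : (fun i => gp a (i + 1)) = gp (a + 1) := by
      funext i
      simp only [gp]
      rw [show a + (i + 1) = a + 1 + i by ring]
    obtain ⟨d, hd⟩ : ∃ d, d = 2 ^ a := ⟨_, rfl⟩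
    have hg : gp a 0 = 12 * d + 2 - a % 2 := by rw [hd]; rfl
    have key : (l + gp a 0 + 2 * k + 3 * (nx c (gp a 0)).toNat) % 6 = (a + 1 + 1) % 2 := by
      rcases Nat.even_or_odd a with ⟨b, hb⟩ | ⟨b, hb⟩
      · have h1 : gp a 0 = 2 * (6 * d + 1) := by omega
        have h2 : nx c (gp a 0) = !c := by rw [h1, nx]; simp
        rw [h2, h1]
        cases c
        · simp only [Bool.toNat_false, Bool.not_false, Bool.toNat_true] at h ⊢
          omega
        · simp only [Bool.toNat_false, Bool.not_true, Bool.toNat_true] at h ⊢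
          omega
      · have h1 : gp a 0 = 2 * (6 * d) + 1 := by omega
        have h2 : nx c (gp a 0) = c := by rw [h1, nx]; simp
        rw [h2, h1]
        cases c
        · simp only [Bool.toNat_false] at h ⊢
          omega
        · simp only [Bool.toNat_true] at h ⊢
          omega
    refine ⟨?_, ?_⟩
    · unfold w
      rw [key]
      omega
    · rw [hfun]
      exact ih (a + 1) _ _ key

lemma sm_gp (r : ℕ) : sm r (gp 0) + 12 ≤ 12 * 2 ^ r + 2 * r := by
  induction r with
  | zero => simp [sm]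
  | succ r ih =>
    have h : gp 0 r ≤ 12 * 2 ^ r + 2 := by
      rw [gp, Nat.zero_add]
      omega
    rw [sm_succ', pow_succ]
    omega

/-- the heights of the segments in the beginning, the last one being `X` -/
def gi (m X : ℕ) : ℕ → ℕ
  | 0 => 4
  | i + 1 => if i + 1 = m then X else gp 0 i

lemma two_pow_mod (ν : ℕ) : 2 ^ (2 * ν + 3) % 6 = 2 := by
  induction ν with
  | zero => rfl
  | succ ν ih =>
    rw [show 2 * (ν + 1) + 3 = (2 * ν + 3) + 2 by ring, pow_add]
    omega

lemma init (ν X N : ℕ) (hN : N ≤ X) : sm (2 * ν + 2) (gi (2 * ν + 2) X) ≤ 7 * 2 ^ (2 * ν + 2) ∧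
    St (3 * 2 ^ (2 * ν + 2)) (2 * ν + 2) (2 ^ (2 * ν + 2)) N [] false (gi (2 * ν + 2) X) := by
  obtain ⟨q, hq⟩ : ∃ q, q = 2 ^ (2 * ν + 2) := ⟨_, rfl⟩
  have hq2 : 2 ^ (2 * ν + 1) * 2 = q := by rw [hq, ← pow_succ]
  have hlt : 2 * ν + 1 < 2 ^ (2 * ν + 1) := Nat.lt_two_pow_self
  have hg : ∀ i < 2 * ν + 2, gi (2 * ν + 2) X i = gi (2 * ν + 3) X i := by
    intro i hi
    cases i with
    | zero => rfl
    | succ i =>
      simp only [gi]
      rw [if_neg (by omega), if_neg (by omega)]
  have hg' : ∀ i < 2 * ν + 1, gi (2 * ν + 2) X (i + 1) = gp 0 i := by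
    intro i hi
    simp only [gi]
    rw [if_neg (by omega)]
  have hsm : sm (2 * ν + 2) (gi (2 * ν + 2) X) + 8 ≤ 7 * q := by
    have h1 : sm (2 * ν + 2) (gi (2 * ν + 2) X) = 4 + sm (2 * ν + 1) (gp 0) := by
      rw [sm_succ (2 * ν + 1), sm_congr _ hg']
      rfl
    have h2 := sm_gp (2 * ν + 1)
    omega
  have hbodd : q.bodd = false := by
    rw [← hq2, Nat.bodd_mul]
    simp
  rw [← hq]
  refine ⟨by omega, ?_, ?_, ?_, ?_, ?_, ?_, rfl⟩
  · show w _ _ _ ∧ W _ _ _ _ _
    refine ⟨?_, ?_⟩
    · show (0 + 4 + 2 * (3 * q) + 3 * (nx false 4).toNat) % 6 ≤ 1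
      have : (nx false 4).toNat = 1 := rfl
      rw [this]
      omega
    · rw [W_congr _ _ _ _ hg']
      apply W_gp
      show (0 + 4 + 2 * (3 * q) + 3 * (nx false 4).toNat) % 6 = _
      have : (nx false 4).toNat = 1 := rfl
      rw [this]
      omega
  · show 3 ≤ 4
    omega
  · intro i hi
    rw [hg' i (by omega), gp, Nat.zero_add]
    omega
  · show N ≤ gi (2 * ν + 2) X (2 * ν + 1 + 1)
    rw [gi, if_pos rfl]
    exact hN
  · simp only [List.length_nil]
    omega
  · rw [hbodd]
    have : (2 * ν + 2).bodd = false := by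
      rw [show 2 * ν + 2 = 2 * (ν + 1) by ring]
      simp
    rw [this]
    rfl

/-! ### the two plays -/

lemma alt_Alt (n : ℕ) : ∀ c, Alt (alt c n) := by
  induction n with
  | zero =>
    intro c i u v hu _
    simp [alt] at hu
  | succ n ih =>
    intro c i u v hu hv
    rw [alt] at hu hv
    cases i with
    | zero =>
      cases n with
      | zero => simp [alt] at hv
      | succ n =>
        simp only [alt, List.getElem?_cons_zero, List.getElem?_cons_succ, Option.some.injEq] at hu hv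
        rw [← hu, ← hv]
        cases c <;> simp
    | succ i =>
      rw [List.getElem?_cons_succ] at hu hv
      exact ih _ i u v hu hv

lemma df_alt (n : ℕ) : ∀ c, df (alt c n) = 0 := by
  induction n with
  | zero => intro c; rfl
  | succ n ih =>
    intro c
    cases n with
    | zero => rfl
    | succ n =>
      have := ih (!c)
      rw [alt] at this
      rw [alt, alt, df, this, if_neg (by cases c <;> simp)]

lemma big_pair {l : List Bool} (h : Big l) (c : Bool) : Big (l ++ [c, c]) := by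
  induction h with
  | nil => exact Big.two _ _ Big.nil
  | two d l _ ih => exact Big.two _ _ ih
  | three d l _ ih => exact Big.three _ _ ih

lemma big_top (t : ℕ) : Big (top t) := by
  induction t with
  | zero => exact Big.nil
  | succ t ih => exact big_pair ih _

lemma big_tri (J : ℕ) {R : List Bool} (h : Big R) : Big (tri J R) := by
  induction J with
  | zero => exact h
  | succ J ih => exact Big.three _ _ (Big.three _ _ ih)

lemma trigs {J t : ℕ} {P : List Bool} (hJ : 0 < J) (hP : P[0]? = some false) (k : ℕ) :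
    Reach (bd k J t P) (bd 0 J t P) := by
  induction k with
  | zero => exact Reach.refl _
  | succ k ih => exact (trig hJ hP).trans ih

theorem sharp (ν : ℕ) : ∃ B E F : Board, Reach B E ∧ Stuck E ∧ Reach B F ∧
    2 ^ (2 * ν + 2) ≤ size B - size E ∧
    (size B - size E) ^ 2 ≤ 2700 * (size B - size F) := by
  obtain ⟨q, hq⟩ : ∃ q, q = 2 ^ (2 * ν + 2) := ⟨_, rfl⟩
  have hq4 : 4 ≤ q := by
    rw [hq, show 2 * ν + 2 = 2 + 2 * ν by ring, pow_add]
    have : 0 < 2 ^ (2 * ν) := by positivity
    omega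
  have hq2 : 2 ^ (2 * ν + 3) = 2 * q := by rw [hq, pow_succ]; ring
  obtain ⟨X, hX⟩ : ∃ X, X = q * (6 * (3 * q) + 3 * q + 6) := ⟨_, rfl⟩
  obtain ⟨g, hg⟩ : ∃ g, g = gi (2 * ν + 2) X := ⟨_, rfl⟩
  obtain ⟨h1, h2⟩ := init ν X X le_rfl
  rw [← hg, ← hq] at h1 h2
  obtain ⟨P, hP⟩ : ∃ P, P = seg (2 * ν + 2) false g [] := ⟨_, rfl⟩
  have hPlen : P.length = sm (2 * ν + 3) g := by rw [hP, seg_length]; rfl
  have hg0 : g 0 = 4 := by rw [hg]; rfl
  have hhead : P[0]? = some false := by
    rw [hP]
    exact seg_head _ _ _ _ (by omega)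
  -- the long play
  obtain ⟨L', c', g', h3, h4⟩ := periods (J := 3 * q) (by omega) (two_pow_mod ν) q (by rw [hq])
    [] false g (by rw [← hq, ← hX]; exact h2)
  rw [List.nil_append, ← hP] at h3
  rw [hq2, List.length_nil, ← hPlen] at h4
  have hF : size (bd 0 (3 * q) 0 (L' ++ seg (2 * ν + 2) c' g' [])) =
      18 * q + (L'.length + sm (2 * ν + 3) g') := by
    simp only [size, bd]
    rw [bs_length, tri_length, top_length, xs_length, List.length_append, seg_length,
      show 2 * ν + 2 + 1 = 2 * ν + 3 from rfl]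
    simp only [List.length_nil]
    omega
  have hB : size (bd (3 * q) (3 * q) q P) = 38 * q + P.length := by
    simp only [size, bd]
    rw [bs_length, tri_length, top_length, xs_length]
    omega
  -- the short play
  have hS : (tri (3 * q) (top q)).length = 20 * q := by
    rw [tri_length, top_length]
    omega
  have hpre := seg_pre (2 * ν + 2) false g []
  rw [← hP, List.append_nil] at hpre
  have hprel := pre_length (2 * ν + 2) false g
  have hdf : df P ≤ 7 * q := by
    rw [hpre]
    have h5 := df_append_le (pre (2 * ν + 2) false g) (alt (sc (2 * ν + 2) false g)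
      (g (2 * ν + 2)))
    rw [df_alt] at h5
    omega
  have halt : Alt (P.drop (20 * q + 1)) := by
    rw [hpre, List.drop_append, List.drop_of_length_le (by omega), List.nil_append]
    exact (alt_Alt _ _).drop _
  obtain ⟨E, h5, h6, h7, h8⟩ := bad_play (T := P) (w₀ := 20 * q + 1)
    (big_tri (3 * q) (big_top q)) (by omega) halt
  have h9 : Reach (bd (3 * q) (3 * q) q P) E := (trigs (by omega) hhead (3 * q)).trans h5
  refine ⟨_, E, _, h9, h6, h3, ?_, ?_⟩
  · rw [hB, ← hq]
    omega
  · rw [hB, hF]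
    have h10 : 38 * q + P.length - size E ≤ 127 * q := by omega
    have h11 : 6 * (q * q) ≤ 38 * q + P.length - (18 * q + (L'.length + sm (2 * ν + 3) g')) := by
      have : q * (3 * (2 * q)) = 6 * (q * q) := by ring
      omega
    calc (38 * q + P.length - size E) ^ 2 ≤ (127 * q) ^ 2 := Nat.pow_le_pow_left h10 2
      _ ≤ 2700 * (6 * (q * q)) := by nlinarith
      _ ≤ _ := Nat.mul_le_mul_left _ h11

end Pool.Agent.H10C
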