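import Pool.Agent.Lib.H10C.Near

/-!
# The quadratic bound for all boards
-/

set_option autoImplicit false

namespace Pool.Agent.H10C

open Relation

/-- consecutive entries differ -/
def Alt (T : List Bool) : Prop := ∀ i u v, T[i]? = some u → T[i + 1]? = some v → u ≠ v

lemma Alt.drop {T : List Bool} (h : Alt T) (n : ℕ) : Alt (T.drop n) := by
  intro i u v hu hv
  rw [List.getElem?_drop] at hu hv
  exact h (n + i) u v hu hv

lemma Alt.take {T : List Bool} (h : Alt T) (n : ℕ) : Alt (T.take n) := by
  intro i u v hu hv
  rw [List.getElem?_take] at hu hv
  split at hu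
  · split at hv
    · exact h i u v hu hv
    · simp at hv
  · simp at hu

lemma Alt.tail {a : Bool} {T : List Bool} (h : Alt (a :: T)) : Alt T := fun i u v hu hv =>
  h (i + 1) u v (by simpa using hu) (by simpa using hv)

/-- the two tiles around a deleted run have the same colour -/
def RunProp (l : List Bool) (S : Set ℕ) : Prop :=
  ∀ a b, a + 1 < b → a ∉ S → b ∉ S → (∀ i, a < i → i < b → i ∈ S) →
    ∀ u v, l[a]? = some u → l[b]? = some v → u = v

lemma RunProp.tail {x : Bool} {l : List Bool} {S : Set ℕ} (h : RunProp (x :: l) S) :
    RunProp l {i | i + 1 ∈ S} := by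
  intro a b hab ha hb hi u v hu hv
  refine h (a + 1) (b + 1) (by omega) ha hb (fun i h1 h2 => ?_) u v (by simpa using hu)
    (by simpa using hv)
  have := hi (i - 1) (by omega) (by omega)
  rw [show i = (i - 1) + 1 by omega]
  exact this

lemma contig0 (T : List Bool) : ∀ (a : Bool) (l : List Bool) (S : Set ℕ), 0 ∉ S →
    RunProp (a :: l) S → Alt (a :: T) → ∀ Y', keep l {i | i + 1 ∈ S} = T ++ Y' →
    ∃ Y, l = T ++ Y := by
  classical
  induction T with
  | nil => intro a l S _ _ _ Y' _; exact ⟨l, rfl⟩
  | cons b T ih =>
    intro a l S h0 hR hA Y' hk
    have hab : a ≠ b := hA 0 a b rfl rfl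
    have h1 : 1 ∉ S := by
      intro h1
      have hex : ∃ q, q + 1 ∉ S := by
        by_contra hcon
        push Not at hcon
        rw [keep_eq_nil (l := l) (S := {i | i + 1 ∈ S}) (fun i _ => hcon i)] at hk
        simp at hk
      have hq := Nat.find_spec hex
      set q := Nat.find hex with hqdef
      have hq0 : 0 < q := by
        rw [Nat.pos_iff_ne_zero]
        intro hq0
        rw [hq0] at hq
        exact hq h1
      have h2 : (keep l {i | i + 1 ∈ S})[0]? = l[q]? := by
        refine keep_getElem?_first (Nat.zero_le _) (fun i hi => by omega) (fun i _ hi => ?_) hq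
        by_contra hcon
        exact Nat.find_min hex hi hcon
      rw [hk] at h2
      refine hab (hR 0 (q + 1) (by omega) h0 hq (fun i hi1 hi2 => ?_) a b rfl ?_)
      · by_contra hcon
        refine Nat.find_min hex (m := i - 1) (by omega) ?_
        rw [show i - 1 + 1 = i by omega]
        exact hcon
      · rw [List.getElem?_cons_succ, ← h2]
        rfl
    cases l with
    | nil => rw [keep_nil] at hk; simp at hk
    | cons x l =>
      rw [keep_cons_not_mem (by exact h1), List.cons_append, List.cons.injEq] at hk
      obtain ⟨rfl, hk⟩ := hk
      obtain ⟨Y, hY⟩ := ih x l {i | i + 1 ∈ S} (by exact h1) hR.tail hA.tail Y' hk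
      exact ⟨Y, by rw [hY, List.cons_append]⟩

/-- an alternating block of the remaining column was a block of the column before -/
lemma contig (l : List Bool) : ∀ (S : Set ℕ), RunProp l S → ∀ X' T Y', Alt T →
    keep l S = X' ++ T ++ Y' → ∃ X Y, l = X ++ T ++ Y := by
  induction l with
  | nil =>
    intro S _ X' T Y' _ h
    rw [keep_nil] at h
    exact ⟨X', Y', h⟩
  | cons a l ih =>
    intro S hR X' T Y' hT h
    by_cases h0 : 0 ∈ S
    · rw [keep_cons_mem h0] at h
      obtain ⟨X, Y, hXY⟩ := ih _ hR.tail X' T Y' hT h
      exact ⟨a :: X, Y, by rw [hXY]; rfl⟩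
    · rw [keep_cons_not_mem h0] at h
      cases X' with
      | cons b X' =>
        rw [List.cons_append, List.cons_append, List.cons.injEq] at h
        obtain ⟨X, Y, hXY⟩ := ih _ hR.tail X' T Y' hT h.2
        exact ⟨a :: X, Y, by rw [hXY]; rfl⟩
      | nil =>
        cases T with
        | nil => exact ⟨a :: l, [], by simp⟩
        | cons b T =>
          rw [List.nil_append, List.cons_append, List.cons.injEq] at h
          obtain ⟨rfl, h⟩ := h
          obtain ⟨Y, hY⟩ := contig0 T a l S h0 hR hT Y' h
          exact ⟨[], Y, by rw [hY]; rfl⟩

lemma group_runProp {B : Board} {x y : Cell} (h : Link B x y) (k : Bool) :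
    RunProp (col B k) (rows (group B x) k) := by
  obtain ⟨c, hc⟩ := group_color h
  intro a b hab ha hb hi u v hu hv
  have h1 := near_group (z := (k, a + 1)) (w := (k, a)) hc (hi (a + 1) (by omega) (by omega)) ha
    (Or.inl ⟨rfl, Or.inr rfl⟩) u hu
  have h2 := near_group (z := (k, b - 1)) (w := (k, b)) hc (hi (b - 1) (by omega) (by omega)) hb
    (Or.inl ⟨rfl, Or.inl (by simp only; omega)⟩) v hv
  rw [h1, h2]

lemma stuck_alt {E : Board} (hE : Stuck E) (k : Bool) : Alt (col E k) := by
  rintro i u v hu hv rfl
  exact hE (k, i) (k, i + 1) ⟨Or.inl ⟨rfl, Or.inl rfl⟩, u, hu, hv⟩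

/-- **Structure lemma for one column.** -/
theorem block_of_play {B E : Board} {s : List Cell} (hplay : Play B s E) (hE : Stuck E)
    (k : Bool) : ∃ X Y, col B k = X ++ col E k ++ Y := by
  induction hplay with
  | nil B => exact ⟨[], [], by simp⟩
  | @cons B E x y s h hp ih =>
    obtain ⟨X, Y, hXY⟩ := ih hE
    rw [col_del] at hXY
    exact contig _ _ (group_runProp h k) X _ Y (stuck_alt hE k) hXY

/-! ### the potential -/

/-- at most the last element of an alternating list is deleted -/
lemma keep_last {T : List Bool} (hT : Alt T) {S : Set ℕ}
    (h : ∀ i < T.length, i ∈ S → i + 1 = T.length) :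
    Alt (keep T S) ∧ T.length ≤ (keep T S).length + 1 := by
  rcases List.eq_nil_or_concat' T with rfl | ⟨L, b, rfl⟩
  · exact ⟨hT, by simp⟩
  · rw [keep_append]
    have h1 : keep L S = L := keep_eq_self fun i hi hiS => by
      have := h i (by simp; omega) hiS
      simp at this
      omega
    rw [h1]
    by_cases hb : L.length ∈ S
    · have h2 : keep [b] {i | L.length + i ∈ S} = [] := keep_eq_nil fun i hi => by
        simp only [List.length_singleton, Nat.lt_one_iff] at hi
        subst hi
        exact hb
      rw [h2, List.append_nil]
      refine ⟨?_, by simp⟩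
      have := hT.take L.length
      simpa using this
    · have h2 : keep [b] {i | L.length + i ∈ S} = [b] := keep_eq_self fun i hi => by
        simp only [List.length_singleton, Nat.lt_one_iff] at hi
        subst hi
        exact hb
      rw [h2]
      exact ⟨hT, by simp⟩

lemma rtg_symm {B : Board} {x z : Cell} (h : ReflTransGen (Link B) x z) :
    ReflTransGen (Link B) z x := by
  induction h with
  | refl => exact ReflTransGen.refl
  | tail _ h ih => exact ReflTransGen.head h.symm ih

theorem sq_step {B : Board} {x y : Cell} (h : Link B x y) (k : Bool) {X T Y : List Bool}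
    (hB : col B k = X ++ T ++ Y) (hT : Alt T) {K : ℕ} (hK : 2 * (col B (!k)).length + 5 ≤ K) :
    ∃ X' T' Y', col (del B (group B x)) k = X' ++ T' ++ Y' ∧ Alt T' ∧
      2 * (X'.length + Y'.length) + K * (col (del B (group B x)) (!k)).length + size B ≤
        2 * (X.length + Y.length) + K * (col B (!k)).length + size (del B (group B x)) := by
  classical
  obtain ⟨c, hc⟩ := group_color h
  have h2 := two_le_gone h
  have hsB := size_eq B k
  have hsD := size_eq (del B (group B x)) k
  set G := group B x with hG
  set a := (col B (!k)).length with ha
  have hlenk : (col B k).length = X.length + T.length + Y.length := by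
    rw [hB]; simp only [List.length_append]
  have hle2 : (col (del B G) (!k)).length ≤ a := by rw [col_del]; exact keep_length_le _ _
  have hle1 : (col (del B G) k).length ≤ (col B k).length := by
    rw [col_del]; exact keep_length_le _ _
  -- tiles of `T`
  have hTtile : ∀ i, i < T.length → tile B (k, X.length + i) = T[i]? := by
    intro i hi
    rw [tile_eq, hB, List.append_assoc, List.getElem?_append_right (by omega),
      List.getElem?_append_left (by omega)]
    congr 1
    omega
  have hTalt : ∀ i, i + 1 < T.length → ¬ Link B (k, X.length + i) (k, X.length + (i + 1)) := by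
    rintro i hi ⟨_, d, h3, h4⟩
    rw [hTtile i (by omega)] at h3
    rw [hTtile (i + 1) hi] at h4
    exact hT i d d h3 h4 rfl
  -- the general decomposition
  have key : ∀ t, (∀ z, t ≤ z → z < T.length → (k, X.length + z) ∈ G → z + 1 = T.length) →
      ∃ X' T' Y', col (del B G) k = X' ++ T' ++ Y' ∧ Alt T' ∧
        X'.length + Y'.length + (col B k).length ≤
          (col (del B G) k).length + X.length + Y.length + t + 1 ∧
        ((∀ z, t ≤ z → z < T.length → (k, X.length + z) ∉ G) →
          X'.length + Y'.length + (col B k).length ≤
          (col (del B G) k).length + X.length + Y.length + t) := by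
    intro t ht
    have hsplit : col B k = (X ++ T.take t) ++ (T.drop t ++ Y) := by
      rw [hB, List.append_assoc, List.append_assoc, ← List.append_assoc (T.take t),
        List.take_append_drop]
    have hlast := keep_last (hT.drop t)
      (S := {i | (X ++ T.take t).length + i ∈ rows G k}) (by
        intro i hi hiS
        rw [List.length_drop] at hi ⊢
        have h3 : (k, X.length + (t + i)) ∈ G := by
          have h4 : (X ++ T.take t).length + i ∈ rows G k := hiS
          rw [mem_rows] at h4
          rw [List.length_append, List.length_take, min_eq_left (by omega)] at h4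
          rw [show X.length + (t + i) = X.length + t + i by omega]
          exact h4
        have := ht (t + i) (by omega) (by omega) h3
        omega)
    refine ⟨keep (X ++ T.take t) (rows G k),
      keep (T.drop t) {i | (X ++ T.take t).length + i ∈ rows G k},
      keep Y {i | (T.drop t).length + i ∈ {i | (X ++ T.take t).length + i ∈ rows G k}},
      ?_, hlast.1, ?_, ?_⟩
    · rw [col_del, hsplit, keep_append (X ++ T.take t), keep_append (T.drop t) Y, List.append_assoc]
    · have h3 : (col (del B G) k).length = (keep (X ++ T.take t) (rows G k)).length +
        ((keep (T.drop t) {i | (X ++ T.take t).length + i ∈ rows G k}).length +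
        (keep Y {i | (T.drop t).length + i ∈ {i | (X ++ T.take t).length + i ∈ rows G k}}).length) := by
        rw [col_del, hsplit, keep_append (X ++ T.take t), keep_append (T.drop t) Y,
          List.length_append, List.length_append]
      have h4 := hlast.2
      have h5 : (T.drop t).length = T.length - t := List.length_drop
      omega
    · intro hfree
      have h3 : (col (del B G) k).length = (keep (X ++ T.take t) (rows G k)).length +
        ((keep (T.drop t) {i | (X ++ T.take t).length + i ∈ rows G k}).length +
        (keep Y {i | (T.drop t).length + i ∈ {i | (X ++ T.take t).length + i ∈ rows G k}}).length) := by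
        rw [col_del, hsplit, keep_append (X ++ T.take t), keep_append (T.drop t) Y,
          List.length_append, List.length_append]
      have h4 : keep (T.drop t) {i | (X ++ T.take t).length + i ∈ rows G k} = T.drop t := by
        apply keep_eq_self
        intro i hi hiS
        rw [List.length_drop] at hi
        have h4 : (X ++ T.take t).length + i ∈ rows G k := hiS
        rw [mem_rows, List.length_append, List.length_take, min_eq_left (by omega)] at h4
        refine hfree (t + i) (by omega) (by omega) ?_
        rw [show X.length + (t + i) = X.length + t + i by omega]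
        exact h4
      have h5 : (T.drop t).length = T.length - t := List.length_drop
      rw [h4] at h3
      omega
  by_cases hside : ∃ i, (!k, i) ∈ G
  · -- the group touches the other column
    obtain ⟨i₀, hi₀⟩ := hside
    have hdel : (col (del B G) (!k)).length + 1 ≤ a := by
      have h3 := keep_length (col B (!k)) (rows G (!k))
      rw [← col_del] at h3
      have h4 : 0 < ((Finset.range (col B (!k)).length).filter (· ∈ rows G (!k))).card := by
        apply Finset.card_pos.2
        refine ⟨i₀, ?_⟩
        rw [Finset.mem_filter, Finset.mem_range]
        exact ⟨mem_len (hc _ hi₀), hi₀⟩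
      omega
    obtain ⟨X', T', Y', h3, h4, h5, -⟩ := key (a + 1) (by
      intro z hz1 hz2 hzG
      by_contra hne
      obtain ⟨w, hw, hl⟩ := group_neighbour h hzG
      rcases hl.1 with ⟨h6, h7 | h7⟩ | ⟨h6, h7⟩
      · have hw' : w = (k, X.length + (z + 1)) := by
          ext1
          · exact h6.symm
          · simp only at h7 ⊢
            omega
        rw [hw'] at hl
        exact hTalt z (by omega) hl
      · obtain ⟨z', rfl⟩ : ∃ z', z = z' + 1 := ⟨z - 1, by omega⟩
        have hw' : w = (k, X.length + z') := by
          ext1
          · exact h6.symm
          · simp only at h7 ⊢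
            omega
        rw [hw'] at hl
        exact hTalt z' (by omega) hl.symm
      · have h8 := mem_len (hc _ hw)
        have h9 : w.1 = !k := by
          simp only at h6
          cases k <;> cases hw1 : w.1 <;> simp_all
        rw [h9] at h8
        simp only at h7
        omega)
    refine ⟨X', T', Y', h3, h4, ?_⟩
    obtain ⟨g, hg⟩ : ∃ g, a = (col (del B G) (!k)).length + 1 + g :=
      ⟨a - (col (del B G) (!k)).length - 1, by omega⟩
    obtain ⟨K', rfl⟩ : ∃ K', K = K' + 1 := ⟨K - 1, by omega⟩
    have h6 : (K' + 1) * a = (K' + 1) * (col (del B G) (!k)).length + K' * (1 + g) + (1 + g) := by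
      rw [hg]; ring
    have h7 : K' ≤ K' * (1 + g) := Nat.le_mul_of_pos_right _ (by omega)
    omega
  · -- the group lies in the column `k`
    push Not at hside
    have heq : (col (del B G) (!k)).length = a := by
      rw [col_del, keep_eq_self (l := col B (!k)) (S := rows G (!k)) (fun i _ => hside i)]
    have hin : ∀ z ∈ G, z.1 = k := by
      intro z hz
      by_contra hne
      apply hside z.2
      have : z = (!k, z.2) := by
        ext1
        · simp only
          cases k <;> cases hz1 : z.1 <;> simp_all
        · rfl
      rw [← this]
      exact hz
    -- a cell of `T` in the group is the first or the last one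
    have hfl : ∀ z, z < T.length → (k, X.length + z) ∈ G → z = 0 ∨ z + 1 = T.length := by
      intro z hz hzG
      by_contra hcon
      push Not at hcon
      obtain ⟨w, hw, hl⟩ := group_neighbour h hzG
      have hw1 := hin w hw
      rcases hl.1 with ⟨h6, h7 | h7⟩ | ⟨h6, h7⟩
      · have hw' : w = (k, X.length + (z + 1)) := by
          ext1
          · exact hw1
          · simp only at h7 ⊢
            omega
        rw [hw'] at hl
        exact hTalt z (by omega) hl
      · obtain ⟨z', rfl⟩ : ∃ z', z = z' + 1 := ⟨z - 1, by omega⟩
        have hw' : w = (k, X.length + z') := by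
          ext1
          · exact hw1
          · simp only at h7 ⊢
            omega
        rw [hw'] at hl
        exact hTalt z' (by omega) hl.symm
      · simp only at h6
        exact h6 hw1.symm
    by_cases hfirst : 0 < T.length ∧ (k, X.length) ∈ G
    · -- the bottom tile of `T` is deleted
      obtain ⟨hTpos, hfG⟩ := hfirst
      -- then no other tile of `T` is deleted
      have hbelow : ∀ z ∈ G, z.2 ≤ X.length ∨ T.length ≤ 1 := by
        by_cases hT1 : T.length ≤ 1
        · exact fun z _ => Or.inr hT1
        · have hsymm : ReflTransGen (Link B) (k, X.length) x := by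
            have : ReflTransGen (Link B) x (k, X.length) := hfG
            exact rtg_symm this
          intro z hz
          left
          have hpath : ReflTransGen (Link B) (k, X.length) z := hsymm.trans hz
          have : z ∈ G ∧ z.2 ≤ X.length := by
            clear hz
            induction hpath with
            | refl => exact ⟨hfG, le_rfl⟩
            | @tail z w _ hzw ih =>
              have hwG : w ∈ G := group_closed ih.1 hzw
              refine ⟨hwG, ?_⟩
              by_contra hcon
              have hz1 := hin z ih.1
              have hw1 := hin w hwG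
              rcases hzw.1 with ⟨h6, h7 | h7⟩ | ⟨h6, h7⟩
              · have hz' : z = (k, X.length + 0) := by
                  ext1
                  · exact hz1
                  · simp only; omega
                have hw' : w = (k, X.length + (0 + 1)) := by
                  ext1
                  · exact hw1
                  · simp only; omega
                rw [hz', hw'] at hzw
                exact hTalt 0 (by omega) hzw
              · omega
              · exact h6 (hz1.trans hw1.symm)
          exact this.2
      obtain ⟨X', T', Y', h3, h4, -, h5⟩ := key 1 (by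
        intro z hz1 hz2 hzG
        rcases hfl z hz2 hzG with h6 | h6
        · omega
        · exact h6)
      have h6 := h5 (by
        intro z hz1 hz2 hzG
        rcases hbelow _ hzG with h6 | h6
        · simp only at h6; omega
        · omega)
      refine ⟨X', T', Y', h3, h4, ?_⟩
      rw [heq]
      omega
    · obtain ⟨X', T', Y', h3, h4, h5, -⟩ := key 0 (by
        intro z _ hz2 hzG
        rcases hfl z hz2 hzG with h6 | h6
        · exfalso
          apply hfirst
          subst h6
          exact ⟨hz2, hzG⟩
        · exact h6)
      refine ⟨X', T', Y', h3, h4, ?_⟩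
      rw [heq]
      omega

theorem sq_bound {B F : Board} {s : List Cell} (hp : Play B s F) (k : Bool) (K : ℕ) :
    ∀ {X T Y : List Bool}, col B k = X ++ T ++ Y → Alt T → 2 * (col B (!k)).length + 5 ≤ K →
      size B ≤ size F + 2 * (X.length + Y.length) + K * (col B (!k)).length := by
  induction hp with
  | nil B => intro X T Y _ _ _; omega
  | @cons B F x y s h _ ih =>
    intro X T Y h1 h2 h3
    obtain ⟨X', T', Y', h4, h5, h6⟩ := sq_step h k h1 h2 h3
    have h7 : (col (del B (group B x)) (!k)).length ≤ (col B (!k)).length := by
      rw [col_del]; exact keep_length_le _ _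
    have h8 := ih h4 h5 (le_trans (by omega) h3)
    omega

/-- **One final column empty.** -/
theorem quadratic {B E F : Board} {s s' : List Cell} (hplay : Play B s E) (hE : Stuck E)
    {j : Bool} (hj : col E j = []) (hp : Play B s' F) :
    size B - size F ≤ 2 * (size B - size E) ^ 2 + 5 * (size B - size E) := by
  obtain ⟨X, Y, hXY⟩ := block_of_play hplay hE (!j)
  have h1 := sq_bound hp (!j) (2 * (col B j).length + 5) hXY (stuck_alt hE (!j))
    (by rw [Bool.not_not])
  rw [Bool.not_not] at h1
  have h2 := size_eq B j
  have h3 := size_eq E j
  rw [hj, List.length_nil] at h3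
  have h4 : (col B (!j)).length = X.length + (col E (!j)).length + Y.length := by
    rw [hXY]; simp only [List.length_append]
  obtain ⟨V, hV⟩ : ∃ V, size B - size E = V := ⟨_, rfl⟩
  rw [hV]
  have h5 : (col B j).length + (X.length + Y.length) = V := by omega
  have h6 : 2 * (X.length + Y.length) + (2 * (col B j).length + 5) * (col B j).length ≤
      2 * V ^ 2 + 5 * V := by
    rw [← h5]
    nlinarith [Nat.zero_le ((col B j).length * (X.length + Y.length)),
      Nat.zero_le ((X.length + Y.length) * (X.length + Y.length))]
  omega

end Pool.Agent.H10C
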