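import Pool.Agent.Lib.H10C.Basic

/-!
# Where a play can end: the final board is a bottom part of the first one
-/

set_option autoImplicit false

namespace Pool.Agent.H10C

open Relation

lemma exists_run_end {B : Board} {x y : Cell} (h : Link B x y) {j : Bool} {p : ℕ}
    (hp : (j, p) ∈ group B x) : ∃ q, p < q ∧ (∀ i, p ≤ i → i < q → (j, i) ∈ group B x) ∧
      (j, q) ∉ group B x := by
  classical
  obtain ⟨c, hc⟩ := group_color h
  have hex : ∃ q, p ≤ q ∧ (j, q) ∉ group B x := by
    refine ⟨max p (col B j).length, le_max_left _ _, fun hq => ?_⟩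
    have h1 := tile_isSome.1 ⟨c, hc _ hq⟩
    have h2 := le_max_right p (col B j).length
    omega
  refine ⟨Nat.find hex, ?_, ?_, (Nat.find_spec hex).2⟩
  · rcases Nat.lt_or_ge p (Nat.find hex) with h1 | h1
    · exact h1
    · exfalso
      have h2 : Nat.find hex = p := le_antisymm h1 (Nat.find_spec hex).1
      have h3 := (Nat.find_spec hex).2
      rw [h2] at h3
      exact h3 hp
  · intro i hi hiq
    by_contra hcon
    exact Nat.find_min hex hiq ⟨hi, hcon⟩

/-- If a deleted group has a cell below the height of the final column, it contains the floor. -/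
lemma low_case {B E : Board} {x y : Cell} {c : Bool} (h : Link B x y)
    (hc : ∀ z ∈ group B x, tile B z = some c) (hE : Stuck E) {j : Bool}
    (hp : col E j <+: col (del B (group B x)) j) {i : ℕ} (hi : i < (col E j).length)
    (hiG : (j, i) ∈ group B x) : (j, 0) ∈ group B x ∧ tile E (j, 0) = some (!c) := by
  classical
  have hex : ∃ p, p < (col E j).length ∧ (j, p) ∈ group B x := ⟨i, hi, hiG⟩
  obtain ⟨hp1, hp2⟩ := Nat.find_spec hex
  set p := Nat.find hex with hpdef
  have hmin : ∀ k < p, (j, k) ∉ group B x := fun k hk hkG =>
    Nat.find_min hex hk ⟨by omega, hkG⟩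
  obtain ⟨q, hq1, hq2, hq3⟩ := exists_run_end h hp2
  have hE' : ∀ k < (col E j).length, tile E (j, k) = (col (del B (group B x)) j)[k]? := by
    intro k hk
    rw [tile_eq, (List.prefix_iff_getElem?.1 hp) k hk, List.getElem?_eq_getElem hk]
  have hfirst : (col (del B (group B x)) j)[p]? = (col B j)[q]? := by
    rw [col_del]
    exact keep_getElem?_first (by omega) (fun i hi => hmin i hi) hq2 hq3
  have htp : tile E (j, p) = some (!c) := by
    have h1 : ∃ d, tile E (j, p) = some d := tile_isSome.2 hp1
    obtain ⟨d, hd⟩ := h1
    have h2 : tile B (j, q) = some d := by rw [tile_eq, ← hfirst, ← hE' p hp1, hd]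
    have h3 := near_group (z := (j, q - 1)) hc (hq2 (q - 1) (by omega) (by omega)) hq3
      (Or.inl ⟨rfl, Or.inl (by simp only; omega)⟩) d h2
    rw [hd, h3]
  rcases Nat.eq_zero_or_pos p with h0 | h0
  · rw [h0] at htp hp2
    exact ⟨hp2, htp⟩
  · exfalso
    have h1 : tile E (j, p - 1) = (col B j)[p - 1]? := by
      rw [hE' (p - 1) (by omega), col_del]
      exact keep_getElem?_low (e := p) (fun i hi => hmin i hi) (by omega)
    obtain ⟨d, hd⟩ := tile_isSome.2 (show p - 1 < (col E j).length by omega)
    have h2 : tile B (j, p - 1) = some d := by rw [tile_eq, ← h1, hd]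
    have h3 := near_group (z := (j, p)) hc hp2 (hmin (p - 1) (by omega))
      (Or.inl ⟨rfl, Or.inr (by simp only; omega)⟩) d h2
    refine hE (j, p - 1) (j, p) ⟨Or.inl ⟨rfl, Or.inl (by simp only; omega)⟩, !c, ?_, htp⟩
    rw [hd, h3]

lemma tile_zero_of_not_low {B E : Board} {S : Set Cell} {j : Bool}
    (hp : col E j <+: col (del B S) j)
    (h : ∀ i < (col E j).length, (j, i) ∉ S) {i : ℕ} (hi : i < (col E j).length) :
    tile E (j, i) = tile B (j, i) := by
  rw [tile_eq, List.getElem?_eq_getElem hi, ← (List.prefix_iff_getElem?.1 hp) i hi, col_del]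
  exact keep_getElem?_low (e := (col E j).length) (fun k hk => h k hk) hi

/-- A group deleted on the way to a stuck board with two non-empty columns has no cell below the
heights of the final columns. -/
lemma step_free {B E : Board} {x y : Cell} (h : Link B x y) (hE : Stuck E)
    (hne : ∀ j, col E j ≠ []) (hp : ∀ j, col E j <+: col (del B (group B x)) j) (j : Bool)
    (i : ℕ) (hi : i < (col E j).length) : (j, i) ∉ group B x := by
  classical
  obtain ⟨c, hc⟩ := group_color h
  intro hG
  obtain ⟨h1, h2⟩ := low_case h hc hE (hp j) hi hG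
  have hpos : ∀ j, 0 < (col E j).length := fun j => List.length_pos_of_ne_nil (hne j)
  have hother : tile E (!j, 0) = some (!c) := by
    by_cases hlow : ∃ k < (col E (!j)).length, (!j, k) ∈ group B x
    · obtain ⟨k, hk, hkG⟩ := hlow
      exact (low_case h hc hE (hp (!j)) hk hkG).2
    · push Not at hlow
      have h3 := tile_zero_of_not_low (hp (!j)) hlow (hpos (!j))
      obtain ⟨d, hd⟩ := tile_isSome.2 (hpos (!j))
      have h4 := near_group (z := (j, 0)) hc h1 (hlow 0 (hpos (!j)))
        (Or.inr ⟨by cases j <;> simp, rfl⟩) d (by rw [← h3, hd])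
      rw [hd, h4]
  exact hE (j, 0) (!j, 0) ⟨Or.inr ⟨by cases j <;> simp, rfl⟩, !c, h2, hother⟩

lemma prefix_step {B E : Board} {S : Set Cell} {j : Bool} (hp : col E j <+: col (del B S) j)
    (h : ∀ i < (col E j).length, (j, i) ∉ S) : col E j <+: col B j := by
  rw [List.prefix_iff_getElem?]
  intro i hi
  rw [← (List.prefix_iff_getElem?.1 hp) i hi, col_del]
  exact (keep_getElem?_low (e := (col E j).length) (fun k hk => h k hk) hi).symm

/-- **Structure lemma, first part.** -/
theorem prefix_of_play {B E : Board} {s : List Cell} (hplay : Play B s E) (hE : Stuck E)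
    (hne : ∀ j, col E j ≠ []) : ∀ j, col E j <+: col B j := by
  induction hplay with
  | nil B => exact fun j => List.prefix_rfl
  | cons h hp ih =>
    have ih' := ih hE hne
    intro j
    exact prefix_step (ih' j) (fun i hi => step_free h hE hne ih' j i hi)

/-- **Structure lemma, second part.** -/
theorem untouched_of_play {B E : Board} {s : List Cell} (hplay : Play B s E) (hE : Stuck E)
    (hne : ∀ j, col E j ≠ []) (j : Bool)
    (hlen : (col E j).length + 2 ≤ (col E (!j)).length) : col E j = col B j := by
  classical
  induction hplay with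
  | nil B => rfl
  | @cons B E x y s h hp ih =>
    have ih' := ih hE hne hlen
    have hpre := prefix_of_play hp hE hne
    have hfree := step_free h hE hne hpre
    obtain ⟨c, hc⟩ := group_color h
    set e := (col E j).length with he
    -- all tiles of the column above the height `e` are deleted
    have hall : ∀ i, e ≤ i → i < (col B j).length → (j, i) ∈ group B x := by
      intro i hi1 hi2
      by_contra hcon
      have h1 := keep_length (col B j) (rows (group B x) j)
      rw [← col_del, ← ih', ← he] at h1
      have h2 : (Finset.range (col B j).length).filter (· ∈ rows (group B x) j) ⊆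
          (Finset.Ico e (col B j).length).erase i := by
        intro k hk
        rw [Finset.mem_filter, Finset.mem_range] at hk
        rw [Finset.mem_erase, Finset.mem_Ico]
        refine ⟨?_, ?_, hk.1⟩
        · rintro rfl
          exact hcon hk.2
        · by_contra hlt
          exact hfree j k (by omega) hk.2
      have h3 := Finset.card_le_card h2
      rw [Finset.card_erase_of_mem (by rw [Finset.mem_Ico]; omega), Nat.card_Ico] at h3
      omega
    have hnone : ∀ i, (j, i) ∉ group B x := by
      intro i hiG
      have hi := tile_isSome.1 ⟨c, hc _ hiG⟩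
      have hei : e ≤ i := by
        by_contra hlt
        exact hfree j i (by omega) hiG
      have h0 : (j, e) ∈ group B x := hall e le_rfl (by omega)
      have hE1 : ∀ k < (col E (!j)).length, tile E (!j, k) = tile B (!j, k) := fun k hk =>
        tile_zero_of_not_low (hpre (!j)) (fun i hi => hfree (!j) i hi) hk
      obtain ⟨d, hd⟩ := tile_isSome.2 (show e < (col E (!j)).length by omega)
      obtain ⟨d', hd'⟩ := tile_isSome.2 (show e + 1 < (col E (!j)).length by omega)
      have h1 : d = !c := near_group (z := (j, e)) hc h0 (hfree (!j) e (by omega))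
        (Or.inr ⟨by cases j <;> simp, rfl⟩) d (by rw [← hE1 e (by omega), hd])
      have h2 : d' ≠ !c := by
        intro hd2
        refine hE (!j, e) (!j, e + 1) ⟨Or.inl ⟨rfl, Or.inl rfl⟩, !c, ?_, ?_⟩
        · rw [hd, h1]
        · rw [hd', hd2]
      have h3 : (j, e + 1) ∉ group B x := by
        intro h3
        exact h2 (near_group (z := (j, e + 1)) hc h3 (hfree (!j) (e + 1) (by omega))
          (Or.inr ⟨by cases j <;> simp, rfl⟩) d' (by rw [← hE1 (e + 1) (by omega), hd']))
      obtain ⟨w, hw, hlink⟩ := group_neighbour h h0
      rcases hlink.1 with ⟨h4, h5 | h5⟩ | ⟨h4, h5⟩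
      · apply h3
        have : w = (j, e + 1) := by
          ext1
          · exact h4.symm
          · exact h5
        rwa [← this]
      · apply hfree j w.2 (by simp only at h5; omega)
        have : w = (j, w.2) := by
          ext1
          · exact h4.symm
          · rfl
        rwa [← this]
      · apply hfree (!j) e (by omega)
        have : w = (!j, e) := by
          ext1
          · simp only at h4 ⊢
            cases j <;> cases hw1 : w.1 <;> simp_all
          · exact h5.symm
        rwa [← this]
    rw [ih', col_del]
    exact keep_eq_self fun i _ => hnone i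

end Pool.Agent.H10C
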